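import Mathlib

set_option autoImplicit false
set_option linter.unusedSectionVars false

namespace Pool.Agent.Helper889.Br

open Finset

/-- product of numbers in `[0,1]` -/
theorem prod_ge {ι : Type} (s : Finset ι) (c : ι → ℝ) (h0 : ∀ i ∈ s, 0 ≤ c i) (h1 : ∀ i ∈ s, c i ≤ 1) :
    1 - ∑ i ∈ s, (1 - c i) ≤ ∏ i ∈ s, c i ∧ ∏ i ∈ s, c i ≤ 1 := by
  classical
  induction s using Finset.induction_on with
  | empty => simp
  | insert a s ha ih =>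
    obtain ⟨i1, i2⟩ := ih (fun i hi => h0 i (mem_insert_of_mem hi)) (fun i hi => h1 i (mem_insert_of_mem hi))
    rw [sum_insert ha, prod_insert ha]
    have a0 := h0 a (mem_insert_self _ _)
    have a1 := h1 a (mem_insert_self _ _)
    have p0 : 0 ≤ ∏ i ∈ s, c i := prod_nonneg fun i hi => h0 i (mem_insert_of_mem hi)
    have s0 : 0 ≤ ∑ i ∈ s, (1 - c i) := sum_nonneg fun i hi => by linarith [h1 i (mem_insert_of_mem hi)]
    constructor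
    · nlinarith
    · nlinarith

/-- total variation of squares of product vectors -/
theorem tv {V H : Type} [Fintype V] [DecidableEq V] [DecidableEq H] (K : Finset H) (a b : V → H → ℝ)
    (ha : ∀ v, ∑ k ∈ K, (a v k) ^ 2 = 1) (hb : ∀ v, ∑ k ∈ K, (b v k) ^ 2 = 1)
    (hc : ∀ v, 0 ≤ ∑ k ∈ K, a v k * b v k) :
    ∑ φ ∈ Fintype.piFinset (fun _ : V => K), |∏ v, (a v (φ v)) ^ 2 - ∏ v, (b v (φ v)) ^ 2|
      ≤ 2 * Real.sqrt (2 * ∑ v, (1 - ∑ k ∈ K, a v k * b v k)) := by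
  set I := Fintype.piFinset (fun _ : V => K) with hI
  set A : (V → H) → ℝ := fun φ => ∏ v, a v (φ v) with hA
  set B : (V → H) → ℝ := fun φ => ∏ v, b v (φ v) with hB
  have hA2 : ∑ φ ∈ I, (A φ) ^ 2 = 1 := by
    have h1 : ∀ φ ∈ I, (A φ) ^ 2 = ∏ v, (a v (φ v)) ^ 2 := fun φ _ => by rw [hA, ← prod_pow]
    rw [sum_congr rfl h1, hI, ← prod_univ_sum (fun _ : V => K) (fun v k => (a v k) ^ 2)]
    simp [ha]
  have hB2 : ∑ φ ∈ I, (B φ) ^ 2 = 1 := by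
    have h1 : ∀ φ ∈ I, (B φ) ^ 2 = ∏ v, (b v (φ v)) ^ 2 := fun φ _ => by rw [hB, ← prod_pow]
    rw [sum_congr rfl h1, hI, ← prod_univ_sum (fun _ : V => K) (fun v k => (b v k) ^ 2)]
    simp [hb]
  have hAB : ∑ φ ∈ I, A φ * B φ = ∏ v, ∑ k ∈ K, a v k * b v k := by
    have h1 : ∀ φ ∈ I, A φ * B φ = ∏ v, (a v (φ v) * b v (φ v)) := fun φ _ => by rw [hA, hB, ← prod_mul_distrib]
    rw [sum_congr rfl h1, hI, ← prod_univ_sum (fun _ : V => K) (fun v k => a v k * b v k)]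
  have hc1 : ∀ v, ∑ k ∈ K, a v k * b v k ≤ 1 := by
    intro v
    have : ∑ k ∈ K, a v k * b v k ≤ ∑ k ∈ K, ((a v k) ^ 2 + (b v k) ^ 2) / 2 :=
      sum_le_sum fun k _ => by nlinarith [sq_nonneg (a v k - b v k)]
    rw [← sum_div, sum_add_distrib, ha, hb] at this
    linarith
  obtain ⟨p1, p2⟩ := prod_ge (univ : Finset V) (fun v => ∑ k ∈ K, a v k * b v k) (fun v _ => hc v) (fun v _ => hc1 v)
  set D := ∑ v, (1 - ∑ k ∈ K, a v k * b v k) with hD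
  have hD0 : 0 ≤ D := sum_nonneg fun v _ => by linarith [hc1 v]
  have hm : ∑ φ ∈ I, (A φ - B φ) ^ 2 ≤ 2 * D := by
    have : ∑ φ ∈ I, (A φ - B φ) ^ 2 = ∑ φ ∈ I, (A φ) ^ 2 + ∑ φ ∈ I, (B φ) ^ 2 - 2 * ∑ φ ∈ I, A φ * B φ := by
      rw [mul_sum, ← sum_add_distrib, ← sum_sub_distrib]
      exact sum_congr rfl fun φ _ => by ring
    rw [this, hA2, hB2, hAB]; linarith
  have hp : ∑ φ ∈ I, (A φ + B φ) ^ 2 ≤ 4 := by
    have : ∑ φ ∈ I, (A φ + B φ) ^ 2 = ∑ φ ∈ I, (A φ) ^ 2 + ∑ φ ∈ I, (B φ) ^ 2 + 2 * ∑ φ ∈ I, A φ * B φ := by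
      rw [mul_sum, ← sum_add_distrib, ← sum_add_distrib]
      exact sum_congr rfl fun φ _ => by ring
    rw [this, hA2, hB2, hAB]; linarith
  have e1 : ∑ φ ∈ I, |∏ v, (a v (φ v)) ^ 2 - ∏ v, (b v (φ v)) ^ 2| = ∑ φ ∈ I, |A φ - B φ| * |A φ + B φ| := by
    refine sum_congr rfl fun φ _ => ?_
    rw [← abs_mul, prod_pow, prod_pow]
    congr 1; ring
  rw [e1]
  have h2 : (∑ φ ∈ I, |A φ - B φ| * |A φ + B φ|) ^ 2 ≤ (2 * Real.sqrt (2 * D)) ^ 2 := by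
    refine (sum_mul_sq_le_sq_mul_sq I _ _).trans ?_
    simp only [sq_abs]
    rw [mul_pow, Real.sq_sqrt (by positivity)]
    have hp0 : 0 ≤ ∑ φ ∈ I, (A φ + B φ) ^ 2 := sum_nonneg fun φ _ => sq_nonneg _
    have hm0 : 0 ≤ ∑ φ ∈ I, (A φ - B φ) ^ 2 := sum_nonneg fun φ _ => sq_nonneg _
    nlinarith [mul_le_mul hm hp hp0 (by positivity)]
  exact le_of_sq_le_sq h2 (by positivity)

end Pool.Agent.Helper889.Br
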