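import Mathlib

set_option autoImplicit false
set_option linter.unusedSectionVars false

namespace Pool.Agent.Helper889.Br

/-- the data of a directed automorphism group -/
structure Sys where
  X : ℕ → Type
  fin : ∀ i, Fintype (X i)
  dec : ∀ i, DecidableEq (X i)
  o : ∀ i, X i
  t : ∀ i, X i
  hot : ∀ i, o i ≠ t i
  H : Type
  grp : Group H
  ρ : ∀ k, H →* Equiv.Perm (X (k+1))

attribute [instance] Sys.fin Sys.dec Sys.grp

variable (S : Sys)

/-- boundary of the tree -/
abbrev Sys.Bd : Type := (i : ℕ) → S.X i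

/-- vertices of level `n` -/
abbrev Sys.V (n : ℕ) : Type := (i : Fin n) → S.X i

/-- the first non-`o` letter at a place `≥ n` is the letter `t` at place `k` -/
def Sys.Sg (n k : ℕ) (x : S.Bd) : Prop := n ≤ k ∧ x k = S.t k ∧ ∀ j, n ≤ j → j < k → x j = S.o j

open Classical in
/-- directed action -/
noncomputable def Sys.dirPt (n : ℕ) (h : S.H) (x : S.Bd) : S.Bd
  | 0 => x 0
  | (k+1) => if S.Sg n k x then S.ρ k h (x (k+1)) else x (k+1)

variable {S}

theorem Sg_unique {n k k' : ℕ} {x : S.Bd} (h : S.Sg n k x) (h' : S.Sg n k' x) : k = k' := by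
  rcases lt_trichotomy k k' with hlt | rfl | hlt
  · have := h'.2.2 k h.1 hlt
    rw [h.2.1] at this
    exact absurd this.symm (S.hot k)
  · rfl
  · have := h.2.2 k' h'.1 hlt
    rw [h'.2.1] at this
    exact absurd this.symm (S.hot k')

theorem dirPt_succ_pos {n k : ℕ} (h : S.H) {x : S.Bd} (hs : S.Sg n k x) :
    S.dirPt n h x (k+1) = S.ρ k h (x (k+1)) := by
  simp only [Sys.dirPt, if_pos hs]

theorem dirPt_succ_neg {n k : ℕ} (h : S.H) {x : S.Bd} (hs : ¬ S.Sg n k x) :
    S.dirPt n h x (k+1) = x (k+1) := by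
  simp only [Sys.dirPt, if_neg hs]

theorem dirPt_zero (n : ℕ) (h : S.H) (x : S.Bd) : S.dirPt n h x 0 = x 0 := rfl

theorem dirPt_le {n : ℕ} (h : S.H) (x : S.Bd) {i : ℕ} (hi : i ≤ n) : S.dirPt n h x i = x i := by
  cases i with
  | zero => rfl
  | succ k => exact dirPt_succ_neg h fun hs => by have := hs.1; omega

theorem dirPt_one (n : ℕ) (x : S.Bd) : S.dirPt n 1 x = x := by
  funext i
  cases i with
  | zero => rfl
  | succ k =>
    by_cases hs : S.Sg n k x
    · rw [dirPt_succ_pos _ hs, map_one]; rfl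
    · rw [dirPt_succ_neg _ hs]

theorem dirPt_before {n k : ℕ} (h : S.H) {x : S.Bd} (hs : S.Sg n k x) {j : ℕ} (hj : j ≤ k) :
    S.dirPt n h x j = x j := by
  cases j with
  | zero => rfl
  | succ j =>
    refine dirPt_succ_neg h fun hs' => ?_
    have := Sg_unique hs hs'
    omega

theorem Sg_congr {n k : ℕ} {x y : S.Bd} (h : ∀ j, n ≤ j → j ≤ k → x j = y j) : S.Sg n k x ↔ S.Sg n k y := by
  constructor
  · rintro ⟨h1, h2, h3⟩
    exact ⟨h1, by rw [← h k h1 le_rfl]; exact h2, fun j hj hk => by rw [← h j hj hk.le]; exact h3 j hj hk⟩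
  · rintro ⟨h1, h2, h3⟩
    exact ⟨h1, by rw [h k h1 le_rfl]; exact h2, fun j hj hk => by rw [h j hj hk.le]; exact h3 j hj hk⟩

theorem Sg_dirPt {n k : ℕ} (h : S.H) (x : S.Bd) : S.Sg n k (S.dirPt n h x) ↔ S.Sg n k x := by
  have key : ∀ k, S.Sg n k x → S.Sg n k (S.dirPt n h x) := fun k hs =>
    (Sg_congr fun j _ hj => dirPt_before h hs hj).2 hs
  constructor
  · intro hs
    by_cases he : ∃ k', S.Sg n k' x
    · obtain ⟨k', hk'⟩ := he
      rw [Sg_unique hs (key k' hk')]
      exact hk'
    · push Not at he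
      have : S.dirPt n h x = x := by
        funext i
        cases i with
        | zero => rfl
        | succ k => exact dirPt_succ_neg h (he k)
      rwa [this] at hs
  · exact key k

theorem dirPt_mul (n : ℕ) (h h' : S.H) (x : S.Bd) : S.dirPt n h (S.dirPt n h' x) = S.dirPt n (h * h') x := by
  funext i
  cases i with
  | zero => rfl
  | succ k =>
    by_cases hs : S.Sg n k x
    · rw [dirPt_succ_pos _ ((Sg_dirPt h' x).2 hs), dirPt_succ_pos _ hs, dirPt_succ_pos _ hs, map_mul]; rfl
    · rw [dirPt_succ_neg _ (fun hc => hs ((Sg_dirPt h' x).1 hc)), dirPt_succ_neg _ hs, dirPt_succ_neg _ hs]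

/-- the coordinates `≥ n` of `dirPt n h x` depend only on the coordinates `≥ n` of `x` -/
theorem dirPt_congr {n : ℕ} (h : S.H) {x y : S.Bd} {i : ℕ} (hxy : ∀ j, n ≤ j → j ≤ i → x j = y j) (hi : n ≤ i) :
    S.dirPt n h x i = S.dirPt n h y i := by
  cases i with
  | zero => exact hxy 0 hi le_rfl
  | succ k =>
    have e : x (k+1) = y (k+1) := hxy _ hi le_rfl
    have hS : S.Sg n k x ↔ S.Sg n k y := Sg_congr fun j h1 h2 => hxy j h1 (by omega)
    by_cases hs : S.Sg n k x
    · rw [dirPt_succ_pos _ hs, dirPt_succ_pos _ (hS.1 hs), e]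
    · rw [dirPt_succ_neg _ hs, dirPt_succ_neg _ (fun hc => hs (hS.2 hc)), e]

/-- prefixes -/
def pre (n : ℕ) (x : S.Bd) : S.V n := fun i => x i

theorem pre_dirPt (n : ℕ) (h : S.H) (x : S.Bd) : pre n (S.dirPt n h x) = pre n x := by
  funext i
  exact dirPt_le h x i.2.le

/-- elements of the base group of level `n` -/
noncomputable def DD (n : ℕ) (φ : S.V n → S.H) : Equiv.Perm S.Bd where
  toFun := fun x => S.dirPt n (φ (pre n x)) x
  invFun := fun x => S.dirPt n (φ (pre n x))⁻¹ x
  left_inv := fun x => by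
    show S.dirPt n (φ (pre n (S.dirPt n (φ (pre n x)) x)))⁻¹ (S.dirPt n (φ (pre n x)) x) = x
    rw [pre_dirPt, dirPt_mul, inv_mul_cancel, dirPt_one]
  right_inv := fun x => by
    show S.dirPt n (φ (pre n (S.dirPt n (φ (pre n x))⁻¹ x))) (S.dirPt n (φ (pre n x))⁻¹ x) = x
    rw [pre_dirPt, dirPt_mul, mul_inv_cancel, dirPt_one]

theorem DD_apply (n : ℕ) (φ : S.V n → S.H) (x : S.Bd) : DD n φ x = S.dirPt n (φ (pre n x)) x := rfl

theorem DD_mul (n : ℕ) (φ ψ : S.V n → S.H) : DD n φ * DD n ψ = DD n (fun v => φ v * ψ v) := by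
  ext x : 1
  rw [Equiv.Perm.mul_apply, DD_apply, DD_apply, DD_apply, pre_dirPt, dirPt_mul]

/-- permutations of the first `n` letters -/
noncomputable def ext (n : ℕ) (f : Equiv.Perm (S.V n)) : Equiv.Perm S.Bd where
  toFun := fun x i => if hi : i < n then f (pre n x) ⟨i, hi⟩ else x i
  invFun := fun x i => if hi : i < n then f.symm (pre n x) ⟨i, hi⟩ else x i
  left_inv := fun x => by
    funext i
    have h1 : pre n (fun i => if hi : i < n then f (pre n x) ⟨i, hi⟩ else x i : S.Bd) = f (pre n x) := by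
      funext j
      simp [pre]
    by_cases hi : i < n
    · simp only [hi, dif_pos, h1, Equiv.symm_apply_apply]; rfl
    · simp only [hi, dif_neg, not_false_eq_true]
  right_inv := fun x => by
    funext i
    have h1 : pre n (fun i => if hi : i < n then f.symm (pre n x) ⟨i, hi⟩ else x i : S.Bd) = f.symm (pre n x) := by
      funext j
      simp [pre]
    by_cases hi : i < n
    · simp only [hi, dif_pos, h1, Equiv.apply_symm_apply]; rfl
    · simp only [hi, dif_neg, not_false_eq_true]

theorem ext_lt {n : ℕ} (f : Equiv.Perm (S.V n)) (x : S.Bd) {i : ℕ} (hi : i < n) :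
    ext n f x i = f (pre n x) ⟨i, hi⟩ := dif_pos hi

theorem ext_ge {n : ℕ} (f : Equiv.Perm (S.V n)) (x : S.Bd) {i : ℕ} (hi : ¬ i < n) :
    ext n f x i = x i := dif_neg hi

theorem pre_ext (n : ℕ) (f : Equiv.Perm (S.V n)) (x : S.Bd) : pre n (ext n f x) = f (pre n x) := by
  funext i
  exact ext_lt f x i.2

theorem ext_mul (n : ℕ) (f g : Equiv.Perm (S.V n)) : ext n f * ext n g = ext n (f * g) := by
  ext x : 1
  rw [Equiv.Perm.mul_apply]
  funext i
  by_cases hi : i < n
  · rw [ext_lt _ _ hi, ext_lt _ _ hi, pre_ext]; rfl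
  · rw [ext_ge _ _ hi, ext_ge _ _ hi, ext_ge _ _ hi]

/-- tree automorphisms -/
def TA (g : Equiv.Perm S.Bd) : Prop := ∀ x y n, (∀ i < n, x i = y i) ↔ (∀ i < n, g x i = g y i)

theorem TA_mul {g h : Equiv.Perm S.Bd} (hg : TA g) (hh : TA h) : TA (g * h) := fun x y n =>
  (hh x y n).trans (hg (h x) (h y) n)

theorem TA_one : TA (1 : Equiv.Perm S.Bd) := fun _ _ _ => Iff.rfl

theorem TA_inv {g : Equiv.Perm S.Bd} (hg : TA g) : TA g⁻¹ := fun x y n => by
  have := hg (g⁻¹ x) (g⁻¹ y) n
  have e1 : g (g⁻¹ x) = x := g.apply_symm_apply x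
  have e2 : g (g⁻¹ y) = y := g.apply_symm_apply y
  rw [e1, e2] at this
  exact this.symm

/-- extension of a word by `o` -/
def up (n : ℕ) (v : S.V n) : S.Bd := fun i => if hi : i < n then v ⟨i, hi⟩ else S.o i

theorem pre_up (n : ℕ) (v : S.V n) : pre n (up n v) = v := by
  funext i; simp [pre, up]

theorem pre_eq_iff {n : ℕ} {x y : S.Bd} : pre n x = pre n y ↔ ∀ i < n, x i = y i := by
  constructor
  · intro h i hi
    exact congrFun h ⟨i, hi⟩
  · intro h; funext i; exact h i i.2

/-- induced permutation of a level -/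
def ind (n : ℕ) (g : Equiv.Perm S.Bd) (hg : TA g) : Equiv.Perm (S.V n) where
  toFun := fun v => pre n (g (up n v))
  invFun := fun v => pre n (g⁻¹ (up n v))
  left_inv := fun v => by
    have h1 : pre n (g⁻¹ (up n (pre n (g (up n v))))) = pre n (g⁻¹ (g (up n v))) := by
      rw [pre_eq_iff, ← TA_inv hg, ← pre_eq_iff, pre_up]
    have e : g⁻¹ (g (up n v)) = up n v := g.symm_apply_apply _
    show pre n (g⁻¹ (up n (pre n (g (up n v))))) = v
    rw [h1, e, pre_up]
  right_inv := fun v => by
    have h1 : pre n (g (up n (pre n (g⁻¹ (up n v))))) = pre n (g (g⁻¹ (up n v))) := by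
      rw [pre_eq_iff, ← hg, ← pre_eq_iff, pre_up]
    have e : g (g⁻¹ (up n v)) = up n v := g.apply_symm_apply _
    show pre n (g (up n (pre n (g⁻¹ (up n v))))) = v
    rw [h1, e, pre_up]

theorem pre_apply (n : ℕ) {g : Equiv.Perm S.Bd} (hg : TA g) (x : S.Bd) : pre n (g x) = ind n g hg (pre n x) := by
  show pre n (g x) = pre n (g (up n (pre n x)))
  rw [pre_eq_iff, ← hg, ← pre_eq_iff, pre_up]

/-- the directed element -/
noncomputable def dir (n : ℕ) : S.H →* Equiv.Perm S.Bd where
  toFun := fun h => DD n (fun _ => h)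
  map_one' := by ext x : 1; rw [DD_apply, dirPt_one]; rfl
  map_mul' := fun h h' => (DD_mul n _ _).symm

theorem dir_apply (n : ℕ) (h : S.H) (x : S.Bd) : dir n h x = S.dirPt n h x := rfl

theorem TA_of_imp {g : Equiv.Perm S.Bd} (h1 : ∀ x y n, (∀ i < n, x i = y i) → (∀ i < n, g x i = g y i))
    (h2 : ∀ x y n, (∀ i < n, x i = y i) → (∀ i < n, g⁻¹ x i = g⁻¹ y i)) : TA g := fun x y n => by
  refine ⟨h1 x y n, fun h => ?_⟩
  have := h2 _ _ n h
  have e1 : g⁻¹ (g x) = x := g.symm_apply_apply x
  have e2 : g⁻¹ (g y) = y := g.symm_apply_apply y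
  rwa [e1, e2] at this

theorem TA_dir (h : S.H) : TA (dir (S := S) 0 h) := by
  have key : ∀ (h : S.H) (x y : S.Bd) n, (∀ i < n, x i = y i) → (∀ i < n, dir 0 h x i = dir 0 h y i) := by
    intro h x y n hxy i hi
    exact dirPt_congr h (fun j _ hj => hxy j (by omega)) (Nat.zero_le i)
  refine TA_of_imp (key h) ?_
  rw [← map_inv]
  exact key h⁻¹

/-- rooted elements -/
noncomputable def root : Equiv.Perm (S.X 0) →* Equiv.Perm S.Bd where
  toFun := fun a =>
    { toFun := fun x i => match i with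
        | 0 => a (x 0)
        | (k+1) => x (k+1)
      invFun := fun x i => match i with
        | 0 => a.symm (x 0)
        | (k+1) => x (k+1)
      left_inv := fun x => by
        funext i
        cases i with
        | zero => exact a.symm_apply_apply _
        | succ k => rfl
      right_inv := fun x => by
        funext i
        cases i with
        | zero => exact a.apply_symm_apply _
        | succ k => rfl }
  map_one' := by
    ext x : 1
    funext i
    cases i with
    | zero => rfl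
    | succ k => rfl
  map_mul' := fun a b => by
    ext x : 1
    funext i
    cases i with
    | zero => rfl
    | succ k => rfl

theorem root_zero (a : Equiv.Perm (S.X 0)) (x : S.Bd) : root a x 0 = a (x 0) := rfl
theorem root_succ (a : Equiv.Perm (S.X 0)) (x : S.Bd) (k : ℕ) : root a x (k+1) = x (k+1) := rfl

theorem TA_root (a : Equiv.Perm (S.X 0)) : TA (root (S := S) a) := by
  have key : ∀ (a : Equiv.Perm (S.X 0)) (x y : S.Bd) n, (∀ i < n, x i = y i) → (∀ i < n, root a x i = root a y i) := by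
    intro a x y n hxy i hi
    cases i with
    | zero => rw [root_zero, root_zero, hxy 0 hi]
    | succ k => rw [root_succ, root_succ, hxy _ hi]
  refine TA_of_imp (key a) ?_
  rw [← map_inv]
  exact key a⁻¹

/-- the word `o^n` -/
def ow (n : ℕ) : S.V n := fun i => S.o i

/-- the word `o^(n-1) t` -/
def tw (n : ℕ) : S.V n := fun i => if (i : ℕ) + 1 = n then S.t i else S.o i

open Classical in
/-- action on functions on a level: `φ ↦ δ_o c · (φ ∘ σ⁻¹)` -/
noncomputable def TT (n : ℕ) (c : S.H) (σ : Equiv.Perm (S.V n)) (φ : S.V n → S.H) : S.V n → S.H :=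
  fun v => (if v = ow n then c else 1) * φ (σ.symm v)

/-- the first commutation property of generators -/
def GP (n : ℕ) (g : Equiv.Perm S.Bd) (hg : TA g) (c : S.H) : Prop :=
  ∀ φ : S.V n → S.H, φ (tw n) = 1 → g * DD n φ = DD n (TT n c (ind n g hg) φ) * ext (n+1) (ind (n+1) g hg)

theorem dirPt_zero_of_pre {n : ℕ} {x : S.Bd} (hx : pre n x = ow n) (h : S.H) : S.dirPt 0 h x = S.dirPt n h x := by
  have hx' : ∀ j < n, x j = S.o j := fun j hj => congrFun hx ⟨j, hj⟩
  have hS : ∀ k, S.Sg 0 k x ↔ S.Sg n k x := by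
    intro k
    constructor
    · rintro ⟨_, h2, h3⟩
      refine ⟨?_, h2, fun j _ hj => h3 j (Nat.zero_le _) hj⟩
      by_contra hcon
      push Not at hcon
      rw [hx' k hcon] at h2
      exact S.hot k h2
    · rintro ⟨h1, h2, h3⟩
      refine ⟨Nat.zero_le _, h2, fun j _ hj => ?_⟩
      by_cases hjn : j < n
      · exact hx' j hjn
      · exact h3 j (by omega) hj
  funext i
  cases i with
  | zero => rfl
  | succ k =>
    by_cases hs : S.Sg 0 k x
    · rw [dirPt_succ_pos _ hs, dirPt_succ_pos _ ((hS k).1 hs)]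
    · rw [dirPt_succ_neg _ hs, dirPt_succ_neg _ (fun hc => hs ((hS k).2 hc))]

theorem GP_dir (n : ℕ) (hn : 1 ≤ n) (h : S.H) : GP n (dir 0 h) (TA_dir h) h := by
  intro φ hφ
  ext x : 1
  rw [Equiv.Perm.mul_apply, Equiv.Perm.mul_apply, DD_apply, DD_apply]
  set y := ext (n+1) (ind (n+1) (dir 0 h) (TA_dir h)) x with hy
  have hyl : ∀ i, i ≤ n → y i = S.dirPt 0 h x i := by
    intro i hi
    have h1 : pre (n+1) y = pre (n+1) (dir 0 h x) := by
      rw [hy, pre_ext, ← pre_apply]
    exact congrFun h1 ⟨i, by omega⟩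
  have hyg : ∀ i, n < i → y i = x i := fun i hi => ext_ge _ _ (by omega)
  have hpy : pre n y = ind n (dir 0 h) (TA_dir h) (pre n x) := by
    rw [← pre_apply, pre_eq_iff]
    intro i hi
    exact hyl i hi.le
  have hT : TT n h (ind n (dir 0 h) (TA_dir h)) φ (pre n y)
      = (if pre n y = ow n then h else 1) * φ (pre n x) := by
    unfold TT
    rw [hpy, Equiv.symm_apply_apply]
  rw [hT, dir_apply]
  by_cases hx : pre n x = ow n
  · have hyx : y = x := by
      funext i
      by_cases hi : i ≤ n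
      · rw [hyl i hi, dirPt_zero_of_pre hx, dirPt_le h x hi]
      · exact hyg i (by omega)
    rw [hyx, if_pos hx, ← dirPt_mul, dirPt_zero_of_pre]
    rw [pre_dirPt]; exact hx
  · have hy2 : pre n y ≠ ow n := by
      intro hc
      apply hx
      have h1 : pre n (S.dirPt 0 h⁻¹ (S.dirPt 0 h x)) = pre n x := by
        rw [dirPt_mul, inv_mul_cancel, dirPt_one]
      have h2 : pre n (S.dirPt 0 h x) = ow n := by
        rw [← hc, pre_eq_iff]
        intro i hi; exact (hyl i hi.le).symm
      rw [dirPt_zero_of_pre h2, pre_dirPt, h2] at h1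
      exact h1.symm
    rw [if_neg hy2, one_mul]
    funext i
    by_cases hi : i ≤ n
    · rw [dirPt_le _ _ hi, hyl i hi]
      exact dirPt_congr h (fun j _ hj => dirPt_le _ _ (hj.trans hi)) (Nat.zero_le i)
    · obtain ⟨k, rfl⟩ : ∃ k, i = k + 1 := ⟨i - 1, by omega⟩
      have hk : n ≤ k := by omega
      have hno : ∀ z : S.Bd, pre n z = pre n x → ¬ S.Sg 0 k z := by
        intro z hz hs
        apply hx
        rw [← hz]
        funext j
        exact hs.2.2 j (Nat.zero_le _) (by omega)
      rw [dirPt_succ_neg h (hno _ (pre_dirPt _ _ _))]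
      by_cases hv : pre n x = tw n
      · rw [hv, hφ, dirPt_one, dirPt_one, hyg _ (by omega)]
      · apply dirPt_congr _ _ (by omega)
        intro j hj1 hj2
        rcases hj1.lt_or_eq with hj | hj
        · exact (hyg j hj).symm
        · subst hj
          rw [hyl _ le_rfl]
          obtain ⟨m, rfl⟩ : ∃ m, n = m + 1 := ⟨n - 1, by omega⟩
          rw [dirPt_succ_neg]
          intro hs
          apply hv
          funext j
          show x j = if (j : ℕ) + 1 = m + 1 then S.t j else S.o j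
          split_ifs with hjm
          · have : (j : ℕ) = m := by omega
            have h2 := hs.2.1
            rw [← this] at h2; exact h2
          · exact hs.2.2 j (Nat.zero_le _) (by omega)

theorem GP_root (n : ℕ) (hn : 1 ≤ n) (a : Equiv.Perm (S.X 0)) : GP n (root a) (TA_root a) 1 := by
  intro φ _
  ext x : 1
  rw [Equiv.Perm.mul_apply, Equiv.Perm.mul_apply, DD_apply, DD_apply]
  set y := ext (n+1) (ind (n+1) (root a) (TA_root a)) x with hy
  have hyx : y = root a x := by
    funext i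
    by_cases hi : i < n + 1
    · have h1 : pre (n+1) y = pre (n+1) (root a x) := by
        rw [hy, pre_ext, ← pre_apply]
      exact congrFun h1 ⟨i, hi⟩
    · rw [hy, ext_ge _ _ hi]
      obtain ⟨k, rfl⟩ : ∃ k, i = k + 1 := ⟨i - 1, by omega⟩
      rfl
  have hT : TT n 1 (ind n (root a) (TA_root a)) φ (pre n y) = φ (pre n x) := by
    unfold TT
    rw [hyx, pre_apply n (TA_root a), Equiv.symm_apply_apply]
    split_ifs <;> rw [one_mul]
  rw [hT, hyx]
  funext i
  cases i with
  | zero => rfl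
  | succ k =>
    rw [root_succ]
    by_cases hk : n ≤ k + 1
    · apply dirPt_congr _ _ hk
      intro j hj _
      obtain ⟨j', rfl⟩ : ∃ j', j = j' + 1 := ⟨j - 1, by omega⟩
      rfl
    · rw [dirPt_le _ _ (by omega), dirPt_le _ _ (by omega), root_succ]

end Pool.Agent.Helper889.Br
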