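import Mathlib
import Pool.Agent.Helper889.Br.Tree
import Pool.Agent.Helper889.Br.Prod

set_option autoImplicit false
set_option linter.unusedSectionVars false

namespace Pool.Agent.Helper889.Br

open Finset Classical

/-- interpolation between `δ_1` and the uniform unit vector of `E` -/
noncomputable def xi {H : Type} [Group H] (E : Finset H) (θ : ℝ) (k : H) : ℝ :=
  if k = 1 then Real.cos θ else if k ∈ E then Real.sin θ / Real.sqrt E.card else 0

section
variable {H : Type} [Group H] {E : Finset H} (hE1 : (1:H) ∉ E) (hE : E.Nonempty)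

theorem xi_zero {θ : ℝ} {k : H} (hk : k ∉ insert 1 E) : xi E θ k = 0 := by
  rw [mem_insert, not_or] at hk
  unfold xi
  rw [if_neg hk.1, if_neg hk.2]

include hE1 hE in
theorem xi_inner {K : Finset H} (hK : insert 1 E ⊆ K) (θ θ' : ℝ) :
    ∑ k ∈ K, xi E θ k * xi E θ' k = Real.cos (θ - θ') := by
  have hcard : (0:ℝ) < E.card := by exact_mod_cast hE.card_pos
  rw [← sum_subset hK (fun k _ hk => by rw [xi_zero hk, zero_mul]), sum_insert hE1]
  have h1 : ∀ k ∈ E, xi E θ k * xi E θ' k = Real.sin θ * Real.sin θ' / E.card := by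
    intro k hk
    have hk1 : k ≠ 1 := fun h => hE1 (h ▸ hk)
    unfold xi
    rw [if_neg hk1, if_neg hk1, if_pos hk, if_pos hk, div_mul_div_comm, Real.mul_self_sqrt hcard.le]
  rw [sum_congr rfl h1, sum_const, nsmul_eq_mul, Real.cos_sub]
  unfold xi
  rw [if_pos rfl, if_pos rfl]
  field_simp

include hE1 hE in
theorem xi_sq {K : Finset H} (hK : insert 1 E ⊆ K) (θ : ℝ) : ∑ k ∈ K, xi E θ k ^ 2 = 1 := by
  have := xi_inner hE1 hE hK θ θ
  rw [sub_self, Real.cos_zero] at this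
  rw [← this]
  exact sum_congr rfl fun k _ => by ring

include hE1 hE in
theorem xi_sq_translate {K : Finset H} (c : H) (hK : ∀ k ∈ insert 1 E, c * k ∈ K) (θ : ℝ) :
    ∑ k ∈ K, xi E θ (c⁻¹ * k) ^ 2 = 1 := by
  have h1 : ∑ k ∈ K, xi E θ (c⁻¹ * k) ^ 2 = ∑ k ∈ K.image (fun k => c⁻¹ * k), xi E θ k ^ 2 := by
    rw [sum_image]
    intro a _ b _ h
    exact mul_left_cancel h
  rw [h1]
  refine xi_sq hE1 hE ?_ θ
  intro k hk
  rw [mem_image]
  exact ⟨c * k, hK k hk, by simp⟩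

include hE1 hE in
theorem xi_half {K : Finset H} (c : H) (hK : insert 1 E ⊆ K) {ε : ℝ}
    (hF : (1 - ε) * E.card ≤ ((E.filter fun k => c⁻¹ * k ∈ E).card : ℝ)) :
    0 ≤ ∑ k ∈ K, xi E (Real.pi / 2) k * xi E (Real.pi / 2) (c⁻¹ * k) ∧
    1 - ε ≤ ∑ k ∈ K, xi E (Real.pi / 2) k * xi E (Real.pi / 2) (c⁻¹ * k) := by
  have hcard : (0:ℝ) < E.card := by exact_mod_cast hE.card_pos
  have e : ∀ k, xi E (Real.pi / 2) k = if k ∈ E then 1 / Real.sqrt E.card else 0 := by
    intro k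
    unfold xi
    rw [Real.cos_pi_div_two, Real.sin_pi_div_two]
    by_cases hk : k = 1
    · subst hk; rw [if_pos rfl, if_neg hE1]
    · rw [if_neg hk]
  have h2 : ∑ k ∈ K, xi E (Real.pi / 2) k * xi E (Real.pi / 2) (c⁻¹ * k)
      = ((E.filter fun k => c⁻¹ * k ∈ E).card : ℝ) / E.card := by
    have hsub : (E.filter fun k => c⁻¹ * k ∈ E) ⊆ K := fun k hk =>
      hK (mem_insert_of_mem (mem_filter.1 hk).1)
    rw [← sum_subset hsub]
    · have : ∀ k ∈ (E.filter fun k => c⁻¹ * k ∈ E), xi E (Real.pi / 2) k * xi E (Real.pi / 2) (c⁻¹ * k) = 1 / E.card := by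
        intro k hk
        rw [mem_filter] at hk
        rw [e, e, if_pos hk.1, if_pos hk.2, div_mul_div_comm, Real.mul_self_sqrt hcard.le, one_mul]
      rw [sum_congr rfl this, sum_const, nsmul_eq_mul]
      ring
    · intro k _ hk
      rw [mem_filter, not_and_or] at hk
      rw [e, e]
      rcases hk with h | h
      · rw [if_neg h, zero_mul]
      · rw [if_neg h, mul_zero]
  rw [h2]
  refine ⟨by positivity, ?_⟩
  rw [le_div_iff₀ hcard]
  exact hF
end

variable {S : Sys}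

/-- index of the last letter different from `o`, plus one -/
noncomputable def lev {n : ℕ} (v : S.V n) : ℕ :=
  (univ.filter fun i : Fin n => v i ≠ S.o i).sup fun i => (i : ℕ) + 1

theorem lev_le_iff {n : ℕ} (v : S.V n) (m : ℕ) : lev v ≤ m ↔ ∀ i : Fin n, m ≤ i → v i = S.o i := by
  unfold lev
  rw [Finset.sup_le_iff]
  constructor
  · intro h i hi
    by_contra hne
    have := h i (mem_filter.2 ⟨mem_univ _, hne⟩)
    omega
  · intro h i hi
    rw [mem_filter] at hi
    by_contra hcon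
    exact hi.2 (h i (by omega))

theorem lev_le {n : ℕ} (v : S.V n) : lev v ≤ n := (lev_le_iff v n).2 fun i hi => absurd i.2 (by omega)

theorem lev_ow (n : ℕ) : lev (ow (S := S) n) = 0 :=
  Nat.le_zero.1 ((lev_le_iff _ 0).2 fun _ _ => rfl)

theorem lev_tw (n : ℕ) (hn : 1 ≤ n) : lev (tw (S := S) n) = n := by
  refine le_antisymm (lev_le _) ?_
  by_contra hcon
  push Not at hcon
  have h1 : lev (tw (S := S) n) ≤ n - 1 := by omega
  have h2 := (lev_le_iff _ _).1 h1 ⟨n - 1, by omega⟩ le_rfl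
  unfold tw at h2
  rw [if_pos (by simp; omega)] at h2
  exact S.hot _ h2.symm

/-- angles -/
noncomputable def ang (n : ℕ) (v : S.V n) : ℝ := Real.pi / 2 * (1 - lev v / n)

/-- weights of functions on a level -/
noncomputable def Wt (n : ℕ) (E : Finset S.H) (φ : S.V n → S.H) : ℝ := ∏ v, xi E (ang n v) (φ v) ^ 2

theorem Wt_nonneg (n : ℕ) (E : Finset S.H) (φ : S.V n → S.H) : 0 ≤ Wt n E φ := prod_nonneg fun _ _ => sq_nonneg _

/-- averaging over the finite group -/
noncomputable def Gav (n : ℕ) (B : Set (Equiv.Perm S.Bd)) (φ : S.V n → S.H) : ℝ :=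
  (∑ f : Equiv.Perm (S.V (n+1)), if DD n φ * ext (n+1) f ∈ B then (1:ℝ) else 0) / Fintype.card (Equiv.Perm (S.V (n+1)))

/-- the mean of level `n` -/
noncomputable def mn (n : ℕ) (E : Finset S.H) (B : Set (Equiv.Perm S.Bd)) : ℝ := ∑' φ, Wt n E φ * Gav n B φ

theorem Gav_mem (n : ℕ) (B : Set (Equiv.Perm S.Bd)) (φ : S.V n → S.H) : 0 ≤ Gav n B φ ∧ Gav n B φ ≤ 1 := by
  have hc : (0:ℝ) < Fintype.card (Equiv.Perm (S.V (n+1))) := by exact_mod_cast Fintype.card_pos
  unfold Gav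
  refine ⟨div_nonneg (sum_nonneg fun f _ => by split_ifs <;> norm_num) hc.le, ?_⟩
  rw [div_le_one hc]
  calc _ ≤ ∑ f : Equiv.Perm (S.V (n+1)), (1:ℝ) := sum_le_sum fun f _ => by split_ifs <;> norm_num
    _ = _ := by simp

theorem Gav_univ (n : ℕ) (φ : S.V n → S.H) : Gav n Set.univ φ = 1 := by
  have hc : (0:ℝ) < Fintype.card (Equiv.Perm (S.V (n+1))) := by exact_mod_cast Fintype.card_pos
  unfold Gav
  simp only [Set.mem_univ, if_true, sum_const, nsmul_eq_mul, mul_one, card_univ]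
  exact div_self hc.ne'

theorem Gav_add (n : ℕ) {A B : Set (Equiv.Perm S.Bd)} (h : Disjoint A B) (φ : S.V n → S.H) :
    Gav n (A ∪ B) φ = Gav n A φ + Gav n B φ := by
  unfold Gav
  rw [← add_div, ← sum_add_distrib]
  congr 1
  refine sum_congr rfl fun f _ => ?_
  by_cases h1 : DD n φ * ext (n+1) f ∈ A
  · have h2 : DD n φ * ext (n+1) f ∉ B := fun h2 => Set.disjoint_left.1 h h1 h2
    rw [if_pos (show _ ∈ A ∪ B from Or.inl h1), if_pos h1, if_neg h2, add_zero]
  · by_cases h2 : DD n φ * ext (n+1) f ∈ B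
    · rw [if_pos (show _ ∈ A ∪ B from Or.inr h2), if_neg h1, if_pos h2, zero_add]
    · rw [if_neg (show ¬ (_ ∈ A ∪ B) from fun h => h.elim h1 h2), if_neg h1, if_neg h2, zero_add]

theorem Wt_zero (n : ℕ) {E : Finset S.H} {K : Finset S.H} (hK : insert 1 E ⊆ K) {φ : S.V n → S.H}
    (hφ : φ ∉ Fintype.piFinset (fun _ : S.V n => K)) : Wt n E φ = 0 := by
  rw [Fintype.mem_piFinset] at hφ
  push Not at hφ
  obtain ⟨v, hv⟩ := hφ
  unfold Wt
  refine prod_eq_zero (mem_univ v) ?_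
  rw [xi_zero (fun h => hv (hK h))]
  norm_num

theorem Wt_sum (n : ℕ) {E : Finset S.H} (hE1 : (1 : S.H) ∉ E) (hE : E.Nonempty) {K : Finset S.H}
    (hK : insert 1 E ⊆ K) : ∑ φ ∈ Fintype.piFinset (fun _ : S.V n => K), Wt n E φ = 1 := by
  unfold Wt
  rw [← prod_univ_sum (fun _ : S.V n => K) (fun v k => xi E (ang n v) k ^ 2)]
  simp [xi_sq hE1 hE hK]

theorem mn_eq (n : ℕ) {E : Finset S.H} {K : Finset S.H} (hK : insert 1 E ⊆ K) (B : Set (Equiv.Perm S.Bd)) :
    mn n E B = ∑ φ ∈ Fintype.piFinset (fun _ : S.V n => K), Wt n E φ * Gav n B φ := by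
  unfold mn
  exact tsum_eq_sum fun φ hφ => by rw [Wt_zero n hK hφ, zero_mul]

/-- the transformation of functions as a bijection -/
noncomputable def TE (n : ℕ) (c : S.H) (σ : Equiv.Perm (S.V n)) : (S.V n → S.H) ≃ (S.V n → S.H) where
  toFun := TT n c σ
  invFun := fun φ v => (if σ v = ow n then c else 1)⁻¹ * φ (σ v)
  left_inv := fun φ => by
    funext v
    simp only [TT, Equiv.symm_apply_apply]
    rw [inv_mul_cancel_left]
  right_inv := fun φ => by
    funext v
    simp only [TT, Equiv.apply_symm_apply]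
    rw [mul_inv_cancel_left]

theorem mn_translate (n : ℕ) (hn : 1 ≤ n) (E : Finset S.H) (g : Equiv.Perm S.Bd) (hg : TA g) (c : S.H)
    (hGP : GP n g hg c) (B : Set (Equiv.Perm S.Bd)) :
    mn n E ((fun p => g * p) ⁻¹' B) = ∑' φ, Wt n E ((TE n c (ind n g hg)).symm φ) * Gav n B φ := by
  have h1 : ∀ φ, Wt n E φ * Gav n ((fun p => g * p) ⁻¹' B) φ = Wt n E φ * Gav n B (TE n c (ind n g hg) φ) := by
    intro φ
    by_cases hφ : φ (tw n) = 1
    · congr 1
      unfold Gav
      congr 1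
      rw [← Equiv.sum_comp (Equiv.mulLeft (ind (n+1) g hg))
        (fun f => if DD n (TE n c (ind n g hg) φ) * ext (n+1) f ∈ B then (1:ℝ) else 0)]
      refine sum_congr rfl fun f _ => ?_
      have : g * (DD n φ * ext (n+1) f) = DD n (TE n c (ind n g hg) φ) * ext (n+1) ((Equiv.mulLeft (ind (n+1) g hg)) f) := by
        rw [← mul_assoc, hGP φ hφ, mul_assoc, ext_mul]; rfl
      rw [← this]; rfl
    · have : Wt n E φ = 0 := by
        unfold Wt
        refine prod_eq_zero (mem_univ (tw n)) ?_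
        have ha : ang n (tw (S := S) n) = 0 := by
          unfold ang
          rw [lev_tw n hn, div_self (by positivity), sub_self, mul_zero]
        rw [ha]
        unfold xi
        rw [if_neg hφ, Real.sin_zero, zero_div]
        simp
      rw [this, zero_mul, zero_mul]
  unfold mn
  rw [tsum_congr h1, ← (TE n c (ind n g hg)).tsum_eq (fun φ => Wt n E ((TE n c (ind n g hg)).symm φ) * Gav n B φ)]
  refine tsum_congr fun φ => ?_
  rw [Equiv.symm_apply_apply]

theorem Wt_TE (n : ℕ) (E : Finset S.H) (c : S.H) (σ : Equiv.Perm (S.V n)) (φ : S.V n → S.H) :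
    Wt n E ((TE n c σ).symm φ) = ∏ v, xi E (ang n (σ.symm v)) ((if v = ow n then c else 1)⁻¹ * φ v) ^ 2 := by
  unfold Wt
  rw [← Equiv.prod_comp σ (fun v => xi E (ang n (σ.symm v)) ((if v = ow n then c else 1)⁻¹ * φ v) ^ 2)]
  refine prod_congr rfl fun v _ => ?_
  rw [Equiv.symm_apply_apply]
  rfl

/-- almost invariance of the mean of level `n` -/
theorem mn_inv (n : ℕ) (hn : 1 ≤ n) {E : Finset S.H} (hE1 : (1 : S.H) ∉ E) (hE : E.Nonempty) (g : Equiv.Perm S.Bd)
    (hg : TA g) (c : S.H) (hGP : GP n g hg c) (hc : c = 1 ∨ (ind n g hg).symm (ow n) = ow n)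
    (hcount : ∑ v, ((lev ((ind n g hg).symm v) : ℝ) - lev v) ^ 2 ≤ 2 * n) {ε : ℝ} (hε : 0 ≤ ε)
    (hF : (1 - ε) * E.card ≤ ((E.filter fun k => c⁻¹ * k ∈ E).card : ℝ)) (B : Set (Equiv.Perm S.Bd)) :
    |mn n E ((fun p => g * p) ⁻¹' B) - mn n E B| ≤ 2 * Real.sqrt (2 * (ε + Real.pi ^ 2 / (4 * n))) := by
  set σ := ind n g hg with hσ
  set K : Finset S.H := insert 1 E ∪ (insert 1 E).image (fun k => c * k) with hK
  have hK1 : insert 1 E ⊆ K := subset_union_left
  have hK2 : ∀ k ∈ insert 1 E, c * k ∈ K := fun k hk => mem_union_right _ (mem_image_of_mem _ hk)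
  set a : S.V n → S.H → ℝ := fun v k => xi E (ang n (σ.symm v)) ((if v = ow n then c else 1)⁻¹ * k) with ha
  set b : S.V n → S.H → ℝ := fun v k => xi E (ang n v) k with hb
  have hn0 : (0:ℝ) < n := by exact_mod_cast hn
  have hlt : mn n E ((fun p => g * p) ⁻¹' B) - mn n E B
      = ∑ φ ∈ Fintype.piFinset (fun _ : S.V n => K), (∏ v, (a v (φ v)) ^ 2 - ∏ v, (b v (φ v)) ^ 2) * Gav n B φ := by
    rw [mn_translate n hn E g hg c hGP B, mn_eq n hK1 B]
    rw [tsum_eq_sum (s := Fintype.piFinset (fun _ : S.V n => K))]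
    · rw [← sum_sub_distrib]
      refine sum_congr rfl fun φ _ => ?_
      rw [Wt_TE]
      unfold Wt
      ring
    · intro φ hφ
      rw [Wt_TE]
      rw [Fintype.mem_piFinset] at hφ
      push Not at hφ
      obtain ⟨v, hv⟩ := hφ
      rw [prod_eq_zero (mem_univ v), zero_mul]
      rw [xi_zero, sq, zero_mul]
      intro hmem
      apply hv
      by_cases hvo : v = ow n
      · rw [if_pos hvo] at hmem
        have := hK2 _ hmem
        rwa [mul_inv_cancel_left] at this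
      · rw [if_neg hvo, inv_one, one_mul] at hmem
        exact hK1 hmem
  have ha2 : ∀ v, ∑ k ∈ K, (a v k) ^ 2 = 1 := by
    intro v
    by_cases hvo : v = ow n
    · simp only [ha, if_pos hvo]
      exact xi_sq_translate hE1 hE c hK2 _
    · simp only [ha, if_neg hvo, inv_one, one_mul]
      exact xi_sq hE1 hE hK1 _
  have hb2 : ∀ v, ∑ k ∈ K, (b v k) ^ 2 = 1 := fun v => xi_sq hE1 hE hK1 _
  have hang : ∀ v : S.V n, 0 ≤ ang n v ∧ ang n v ≤ Real.pi / 2 := by
    intro v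
    have h1 : (lev v : ℝ) / n ≤ 1 := by
      rw [div_le_one hn0]; exact_mod_cast lev_le v
    have h2 : 0 ≤ (lev v : ℝ) / n := by positivity
    have := Real.pi_pos
    unfold ang
    constructor
    · have : 0 ≤ 1 - (lev v : ℝ) / n := by linarith
      positivity
    · nlinarith
  have hcos : ∀ v w : S.V n, 0 ≤ Real.cos (ang n v - ang n w) ∧
      1 - Real.cos (ang n v - ang n w) ≤ Real.pi ^ 2 / (8 * n ^ 2) * ((lev v : ℝ) - lev w) ^ 2 := by
    intro v w
    obtain ⟨v0, v1⟩ := hang v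
    obtain ⟨w0, w1⟩ := hang w
    refine ⟨Real.cos_nonneg_of_neg_pi_div_two_le_of_le (by linarith) (by linarith), ?_⟩
    have h1 := Real.one_sub_sq_div_two_le_cos (x := ang n v - ang n w)
    have h2 : (ang n v - ang n w) ^ 2 / 2 = Real.pi ^ 2 / (8 * n ^ 2) * ((lev v : ℝ) - lev w) ^ 2 := by
      unfold ang
      field_simp
      ring
    linarith
  have hterm : ∀ v, 0 ≤ ∑ k ∈ K, a v k * b v k ∧ 1 - ∑ k ∈ K, a v k * b v k ≤
      (if v = ow n then ε else 0) + Real.pi ^ 2 / (8 * n ^ 2) * ((lev (σ.symm v) : ℝ) - lev v) ^ 2 := by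
    intro v
    have hq : 0 ≤ Real.pi ^ 2 / (8 * n ^ 2) * ((lev (σ.symm v) : ℝ) - lev v) ^ 2 := by positivity
    by_cases hvo : v = ow n
    · rcases hc with hc1 | hc2
      · have e : ∑ k ∈ K, a v k * b v k = Real.cos (ang n (σ.symm v) - ang n v) := by
          rw [← xi_inner hE1 hE hK1]
          refine sum_congr rfl fun k _ => ?_
          simp only [ha, hb, if_pos hvo, hc1, inv_one, one_mul]
        rw [e]
        refine ⟨(hcos _ _).1, ?_⟩
        have := (hcos (σ.symm v) v).2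
        rw [if_pos hvo]
        linarith
      · have hang0 : ang n (ow (S := S) n) = Real.pi / 2 := by
          unfold ang
          rw [lev_ow]; simp
        have e : ∑ k ∈ K, a v k * b v k = ∑ k ∈ K, xi E (Real.pi / 2) k * xi E (Real.pi / 2) (c⁻¹ * k) := by
          refine sum_congr rfl fun k _ => ?_
          simp only [ha, hb, if_pos hvo]
          rw [hvo, hc2, hang0, mul_comm]
        obtain ⟨g1, g2⟩ := xi_half hE1 hE c hK1 hF
        rw [e, if_pos hvo]
        exact ⟨g1, by linarith⟩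
    · have e : ∑ k ∈ K, a v k * b v k = Real.cos (ang n (σ.symm v) - ang n v) := by
        rw [← xi_inner hE1 hE hK1]
        refine sum_congr rfl fun k _ => ?_
        simp only [ha, hb, if_neg hvo, inv_one, one_mul]
      rw [e]
      refine ⟨(hcos _ _).1, ?_⟩
      have := (hcos (σ.symm v) v).2
      rw [if_neg hvo]
      linarith
  have htv := tv K a b ha2 hb2 (fun v => (hterm v).1)
  have hsum : ∑ v, (1 - ∑ k ∈ K, a v k * b v k) ≤ ε + Real.pi ^ 2 / (4 * n) := by
    calc ∑ v, (1 - ∑ k ∈ K, a v k * b v k)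
        ≤ ∑ v, ((if v = ow n then ε else 0) + Real.pi ^ 2 / (8 * n ^ 2) * ((lev (σ.symm v) : ℝ) - lev v) ^ 2) :=
          sum_le_sum fun v _ => (hterm v).2
      _ = ε + Real.pi ^ 2 / (8 * n ^ 2) * ∑ v, ((lev (σ.symm v) : ℝ) - lev v) ^ 2 := by
          rw [sum_add_distrib, ← mul_sum]
          simp
      _ ≤ ε + Real.pi ^ 2 / (8 * n ^ 2) * (2 * n) := by gcongr
      _ = ε + Real.pi ^ 2 / (4 * n) := by field_simp; ring
  rw [hlt]
  calc |∑ φ ∈ Fintype.piFinset (fun _ : S.V n => K), (∏ v, (a v (φ v)) ^ 2 - ∏ v, (b v (φ v)) ^ 2) * Gav n B φ|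
      ≤ ∑ φ ∈ Fintype.piFinset (fun _ : S.V n => K), |∏ v, (a v (φ v)) ^ 2 - ∏ v, (b v (φ v)) ^ 2| := by
        refine (abs_sum_le_sum_abs _ _).trans (sum_le_sum fun φ _ => ?_)
        rw [abs_mul, abs_of_nonneg (Gav_mem n B φ).1]
        exact mul_le_of_le_one_right (abs_nonneg _) (Gav_mem n B φ).2
    _ ≤ _ := htv
    _ ≤ _ := by gcongr

theorem mn_basic (n : ℕ) {E : Finset S.H} (hE1 : (1 : S.H) ∉ E) (hE : E.Nonempty) :
    (∀ B, 0 ≤ mn n E B) ∧ (∀ B, mn n E B ≤ 1) ∧ mn (S := S) n E Set.univ = 1 ∧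
    ∀ A B : Set (Equiv.Perm S.Bd), Disjoint A B → mn n E (A ∪ B) = mn n E A + mn n E B := by
  have hK : insert 1 E ⊆ insert 1 E := subset_rfl
  refine ⟨fun B => ?_, fun B => ?_, ?_, fun A B h => ?_⟩
  · rw [mn_eq n hK]
    exact sum_nonneg fun φ _ => mul_nonneg (Wt_nonneg _ _ _) (Gav_mem n B φ).1
  · rw [mn_eq n hK, ← Wt_sum (S := S) n hE1 hE hK]
    exact sum_le_sum fun φ _ => mul_le_of_le_one_right (Wt_nonneg _ _ _) (Gav_mem n B φ).2
  · rw [mn_eq n hK, ← Wt_sum (S := S) n hE1 hE hK]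
    exact sum_congr rfl fun φ _ => by rw [Gav_univ, mul_one]
  · rw [mn_eq n hK, mn_eq n hK, mn_eq n hK, ← sum_add_distrib]
    exact sum_congr rfl fun φ _ => by rw [Gav_add n h, mul_add]

end Pool.Agent.Helper889.Br
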