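import Mathlib
import Pool.Agent.Helper889.Br.Mean

set_option autoImplicit false
set_option linter.unusedSectionVars false

namespace Pool.Agent.Helper889.Br

open Finset Classical

variable {S : Sys}

theorem lev_close {n : ℕ} (v w : S.V n) (j : ℕ) (h : ∀ i : Fin n, (i : ℕ) ≠ j → v i = w i)
    (h' : ∀ i : Fin n, (i : ℕ) + 1 = j → w i ≠ S.o i) : lev v ≤ lev w + 1 := by
  rw [lev_le_iff]
  intro i hi
  have hw := (lev_le_iff w (lev w)).1 le_rfl
  by_cases hij : (i : ℕ) = j
  · exfalso
    have h0 : 1 ≤ (i : ℕ) := by omega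
    have h1 : (i : ℕ) - 1 < n := by omega
    exact h' ⟨(i : ℕ) - 1, h1⟩ (by simp; omega) (hw ⟨(i : ℕ) - 1, h1⟩ (by simp; omega))
  · rw [h i hij]
    exact hw i (by omega)

theorem lev_ne {n : ℕ} (v w : S.V n) (j : ℕ) (h : ∀ i : Fin n, (i : ℕ) ≠ j → v i = w i) (hl : lev v ≠ lev w) :
    (∀ i : Fin n, j < i → v i = S.o i) ∧ ((∀ i : Fin n, (i : ℕ) = j → v i = S.o i) ∨ (∀ i : Fin n, (i : ℕ) = j → w i = S.o i)) := by
  have hv := (lev_le_iff v (lev v)).1 le_rfl
  have hw := (lev_le_iff w (lev w)).1 le_rfl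
  constructor
  · intro i hi
    by_contra hne
    apply hl
    have h1 : ¬ lev v ≤ i := fun hc => hne (hv i hc)
    have h2 : ¬ lev w ≤ i := fun hc => hne (by rw [h i (by omega)]; exact hw i hc)
    refine le_antisymm ((lev_le_iff _ _).2 fun i' hi' => ?_) ((lev_le_iff _ _).2 fun i' hi' => ?_)
    · rw [h i' (by omega)]; exact hw i' hi'
    · rw [← h i' (by omega)]; exact hv i' hi'
  · by_contra hcon
    push Not at hcon
    obtain ⟨⟨i, hi, hi'⟩, ⟨k, hk, hk'⟩⟩ := hcon
    have hik : i = k := Fin.ext (hi.trans hk.symm)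
    subst hik
    apply hl
    have h1 : ¬ lev v ≤ i := fun hc => hi' (hv i hc)
    have h2 : ¬ lev w ≤ i := fun hc => hk' (hw i hc)
    refine le_antisymm ((lev_le_iff _ _).2 fun i' hi' => ?_) ((lev_le_iff _ _).2 fun i' hi' => ?_)
    · rw [h i' (by omega)]; exact hw i' hi'
    · rw [← h i' (by omega)]; exact hv i' hi'

theorem count_gen {n : ℕ} (σ : Equiv.Perm (S.V n)) (P : Finset (S.V n)) (hP : P.card ≤ n)
    (h1 : ∀ v, lev (σ.symm v) ≤ lev v + 1 ∧ lev v ≤ lev (σ.symm v) + 1)
    (h2 : ∀ v, lev (σ.symm v) ≠ lev v → v ∈ P ∨ σ.symm v ∈ P) :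
    ∑ v, ((lev (σ.symm v) : ℝ) - lev v) ^ 2 ≤ 2 * n := by
  have hb : ∀ v, ((lev (σ.symm v) : ℝ) - lev v) ^ 2 ≤ if v ∈ P ∪ P.image σ then (1:ℝ) else 0 := by
    intro v
    by_cases hv : lev (σ.symm v) = lev v
    · rw [hv, sub_self]
      split_ifs <;> norm_num
    · have hm : v ∈ P ∪ P.image σ := by
        rcases h2 v hv with h | h
        · exact mem_union_left _ h
        · exact mem_union_right _ (mem_image.2 ⟨_, h, σ.apply_symm_apply v⟩)
      rw [if_pos hm]
      obtain ⟨a, b⟩ := h1 v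
      have a' : (lev (σ.symm v) : ℝ) ≤ lev v + 1 := by exact_mod_cast a
      have b' : (lev v : ℝ) ≤ lev (σ.symm v) + 1 := by exact_mod_cast b
      rw [sq_le_one_iff_abs_le_one, abs_le]
      constructor <;> linarith
  calc ∑ v, ((lev (σ.symm v) : ℝ) - lev v) ^ 2 ≤ ∑ v, if v ∈ P ∪ P.image σ then (1:ℝ) else 0 :=
        sum_le_sum fun v _ => hb v
    _ = ((P ∪ P.image σ).card : ℝ) := by
        rw [← sum_filter, filter_mem_eq_inter, univ_inter, sum_const, nsmul_eq_mul, mul_one]
    _ ≤ ((n + n : ℕ) : ℝ) := by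
        have := card_union_le P (P.image σ)
        have h3 : (P.image σ).card ≤ P.card := card_image_le
        exact_mod_cast (by omega : (P ∪ P.image σ).card ≤ n + n)
    _ = 2 * n := by push_cast; ring

theorem ind_symm (n : ℕ) (g : Equiv.Perm S.Bd) (hg : TA g) (v : S.V n) :
    (ind n g hg).symm v = pre n (g⁻¹ (up n v)) := rfl

/-- the point `o^k t_k o^∞` -/
def xk (k : ℕ) : S.Bd := fun i => if i = k then S.t i else S.o i

theorem count_dir (n : ℕ) (h : S.H) :
    ∑ v, ((lev ((ind n (dir 0 h) (TA_dir h)).symm v) : ℝ) - lev v) ^ 2 ≤ 2 * n := by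
  have key : ∀ v : S.V n, (ind n (dir 0 h) (TA_dir h)).symm v = v ∨ ∃ k, k + 1 < n ∧
      (∀ i : Fin n, (i : ℕ) ≠ k + 1 → (ind n (dir 0 h) (TA_dir h)).symm v i = v i) ∧
      (∀ i : Fin n, (i : ℕ) = k → v i = S.t i) ∧ (∀ i : Fin n, (i : ℕ) < k → v i = S.o i) := by
    intro v
    rw [ind_symm, ← map_inv, dir_apply]
    by_cases he : ∃ k, k + 1 < n ∧ S.Sg 0 k (up n v)
    · obtain ⟨k, hk, hs⟩ := he
      right
      refine ⟨k, hk, ?_, ?_, ?_⟩
      · intro i hi
        have h1 : pre n (S.dirPt 0 h⁻¹ (up n v)) i = S.dirPt 0 h⁻¹ (up n v) i := rfl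
        rw [h1]
        have h2 : S.dirPt 0 h⁻¹ (up n v) i = (up n v) i := by
          obtain ⟨i, hi'⟩ := i
          show S.dirPt 0 h⁻¹ (up n v) i = (up n v) i
          cases i with
          | zero => rfl
          | succ j =>
            refine dirPt_succ_neg _ fun hs' => hi ?_
            show j + 1 = k + 1
            rw [Sg_unique hs hs']
        rw [h2]
        exact congrFun (pre_up n v) i
      · intro i hi
        rw [← congrFun (pre_up n v) i]
        show up n v i = S.t i
        have := hs.2.1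
        obtain ⟨i, hi'⟩ := i
        simp only at hi
        subst hi
        exact this
      · intro i hi
        rw [← congrFun (pre_up n v) i]
        exact hs.2.2 i (Nat.zero_le _) hi
    · left
      push Not at he
      conv_rhs => rw [← pre_up n v]
      rw [pre_eq_iff]
      intro i hi
      cases i with
      | zero => rfl
      | succ j => exact dirPt_succ_neg _ (he j hi)
  refine count_gen _ ((range n).image fun k => pre n (xk k)) (card_image_le.trans (card_range n).le) ?_ ?_
  · intro v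
    rcases key v with h1 | ⟨k, hk, h1, h2, h3⟩
    · rw [h1]; omega
    · constructor
      · refine lev_close _ _ (k+1) h1 fun i hi => ?_
        rw [h2 i (by omega)]
        exact (S.hot i).symm
      · refine lev_close _ _ (k+1) (fun i hi => (h1 i hi).symm) fun i hi => ?_
        rw [h1 i (by omega), h2 i (by omega)]
        exact (S.hot i).symm
  · intro v hv
    rcases key v with h1 | ⟨k, hk, h1, h2, h3⟩
    · rw [h1] at hv; exact absurd rfl hv
    · obtain ⟨g1, g2⟩ := lev_ne v _ (k+1) (fun i hi => (h1 i hi).symm) (Ne.symm hv)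
      have hxk : ∀ w : S.V n, (∀ i : Fin n, (i : ℕ) ≠ k + 1 → w i = v i) → (∀ i : Fin n, (i : ℕ) = k + 1 → w i = S.o i) →
          w ∈ (range n).image fun k => pre n (xk (S := S) k) := by
        intro w hw1 hw2
        rw [mem_image]
        refine ⟨k, mem_range.2 (by omega), ?_⟩
        funext i
        show xk k i = w i
        unfold xk
        by_cases hik : (i : ℕ) = k
        · rw [if_pos hik, hw1 i (by omega), h2 i hik]
        · rw [if_neg hik]
          by_cases hi1 : (i : ℕ) = k + 1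
          · rw [hw2 i hi1]
          · rw [hw1 i hi1]
            by_cases hlt : (i : ℕ) < k
            · rw [h3 i hlt]
            · rw [g1 i (by omega)]
      rcases g2 with g2 | g2
      · left; exact hxk v (fun _ _ => rfl) g2
      · right; exact hxk _ h1 g2

theorem count_root (n : ℕ) (hn : 1 ≤ n) (a : Equiv.Perm (S.X 0)) :
    ∑ v, ((lev ((ind n (root a) (TA_root a)).symm v) : ℝ) - lev v) ^ 2 ≤ 2 * n := by
  have key : ∀ v : S.V n, ∀ i : Fin n, (i : ℕ) ≠ 0 → (ind n (root a) (TA_root a)).symm v i = v i := by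
    intro v i hi
    rw [ind_symm, ← map_inv]
    conv_rhs => rw [← pre_up n v]
    show root a⁻¹ (up n v) i = up n v i
    obtain ⟨i, hi'⟩ := i
    simp only at hi
    obtain ⟨j, rfl⟩ : ∃ j, i = j + 1 := ⟨i - 1, by omega⟩
    rfl
  refine count_gen _ {ow n} (by simp; exact hn) ?_ ?_
  · intro v
    constructor
    · exact lev_close _ _ 0 (key v) fun i hi => by omega
    · exact lev_close _ _ 0 (fun i hi => (key v i hi).symm) fun i hi => by omega
  · intro v hv
    obtain ⟨g1, g2⟩ := lev_ne v _ 0 (fun i hi => (key v i hi).symm) (Ne.symm hv)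
    have ho : ∀ w : S.V n, (∀ i : Fin n, (i : ℕ) ≠ 0 → w i = v i) → (∀ i : Fin n, (i : ℕ) = 0 → w i = S.o i) →
        w ∈ ({ow n} : Finset (S.V n)) := by
      intro w hw1 hw2
      rw [mem_singleton]
      funext i
      by_cases hi : (i : ℕ) = 0
      · rw [hw2 i hi]; rfl
      · rw [hw1 i hi, g1 i (by omega)]; rfl
    rcases g2 with g2 | g2
    · left; exact ho v (fun _ _ => rfl) g2
    · right; exact ho _ (key v) g2

theorem dir_fix (n : ℕ) (h : S.H) : (ind n (dir 0 h) (TA_dir h)).symm (ow n) = ow n := by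
  rw [ind_symm, ← map_inv, dir_apply, dirPt_zero_of_pre (pre_up n _), pre_dirPt, pre_up]

end Pool.Agent.Helper889.Br
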