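import Mathlib
import Pool.Agent.Helper889.Br.Count

set_option autoImplicit false
set_option linter.unusedSectionVars false

namespace Pool.Agent.Helper889.Br

open Finset Filter Topology

variable {S : Sys}

/-- Foelner condition (avoiding the identity) for a set of elements -/
def Fol (H : Type) [Group H] (T : Set H) : Prop := ∀ ε : ℝ, 0 < ε → ∃ E : Finset H, E.Nonempty ∧ (1 : H) ∉ E ∧
  ∀ c ∈ T, (1 - ε) * E.card ≤ ({k : H | k ∈ E ∧ c⁻¹ * k ∈ E}.ncard : ℝ)

theorem exists_mean (T : Set S.H) (hF : Fol S.H T) :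
    ∃ m : Set (Equiv.Perm S.Bd) → ℝ, (∀ B, 0 ≤ m B) ∧ m Set.univ = 1 ∧
      (∀ A B, Disjoint A B → m (A ∪ B) = m A + m B) ∧
      (∀ c ∈ T, ∀ B, m ((fun p => dir 0 c * p) ⁻¹' B) = m B) ∧
      (∀ a : Equiv.Perm (S.X 0), ∀ B, m ((fun p => root a * p) ⁻¹' B) = m B) := by
  classical
  have hF' : ∀ n : ℕ, ∃ E : Finset S.H, E.Nonempty ∧ (1 : S.H) ∉ E ∧
      ∀ c ∈ T, (1 - 1 / ((n:ℝ) + 1)) * E.card ≤ ({k : S.H | k ∈ E ∧ c⁻¹ * k ∈ E}.ncard : ℝ) :=
    fun n => hF _ (by positivity)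
  choose E hE hE1 hEF using hF'
  have hcard : ∀ n c, ({k : S.H | k ∈ E n ∧ c⁻¹ * k ∈ E n}.ncard : ℝ) = (((E n).filter fun k => c⁻¹ * k ∈ E n).card : ℝ) := by
    intro n c
    have : {k : S.H | k ∈ E n ∧ c⁻¹ * k ∈ E n} = (((E n).filter fun k => c⁻¹ * k ∈ E n : Finset S.H) : Set S.H) := by
      ext k; simp
    rw [this, Set.ncard_coe_finset]
  have hlim : ∀ B : Set (Equiv.Perm S.Bd), ∃ x : ℝ, 
      Tendsto (fun n : ℕ => mn (n+1) (E n) B) (hyperfilter ℕ : Filter ℕ) (𝓝 x) := by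
    intro B
    have hc : IsCompact (Set.Icc (0:ℝ) 1) := isCompact_Icc
    have h1 : (((hyperfilter ℕ).map (fun n : ℕ => mn (n+1) (E n) B) : Ultrafilter ℝ) : Filter ℝ) ≤ 𝓟 (Set.Icc (0:ℝ) 1) := by
      rw [le_principal_iff]
      rw [Ultrafilter.mem_coe, Ultrafilter.mem_map]
      refine Filter.univ_mem' fun n => ?_
      have := mn_basic (S := S) (n+1) (hE1 n) (hE n)
      exact ⟨this.1 B, this.2.1 B⟩
    obtain ⟨x, _, hx⟩ := hc.ultrafilter_le_nhds _ h1
    exact ⟨x, hx⟩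
  choose m hm using hlim
  have hle : (hyperfilter ℕ : Filter ℕ) ≤ atTop := by
    rw [← Nat.cofinite_eq_atTop]; exact hyperfilter_le_cofinite
  have hinv : ∀ (g : Equiv.Perm S.Bd), (∀ n : ℕ, ∀ B, |mn (n+1) (E n) ((fun p => g * p) ⁻¹' B) - mn (n+1) (E n) B|
      ≤ 2 * Real.sqrt (2 * (1 / ((n:ℝ) + 1) + Real.pi ^ 2 / (4 * (((n+1 : ℕ)) : ℝ))))) →
      ∀ B, m ((fun p => g * p) ⁻¹' B) = m B := by
    intro g hg B
    have h1 : Tendsto (fun n : ℕ => 2 * Real.sqrt (2 * (1 / ((n:ℝ) + 1) + Real.pi ^ 2 / (4 * (((n+1 : ℕ)) : ℝ))))) atTop (𝓝 0) := by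
      have h2 : Tendsto (fun n : ℕ => 1 / ((n:ℝ) + 1)) atTop (𝓝 0) := tendsto_one_div_add_atTop_nhds_zero_nat
      have h3 : Tendsto (fun n : ℕ => 2 * Real.sqrt (2 * (1 / ((n:ℝ) + 1) + Real.pi ^ 2 / 4 * (1 / ((n:ℝ) + 1))))) atTop
          (𝓝 (2 * Real.sqrt (2 * (0 + Real.pi ^ 2 / 4 * 0)))) := by
        refine Tendsto.const_mul _ (Tendsto.sqrt (Tendsto.const_mul _ (h2.add (h2.const_mul _))))
      rw [mul_zero, add_zero, mul_zero, Real.sqrt_zero, mul_zero] at h3
      refine h3.congr fun n => ?_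
      congr 3
      push_cast
      congr 1
      field_simp
    have h4 : Tendsto (fun n : ℕ => mn (n+1) (E n) ((fun p => g * p) ⁻¹' B) - mn (n+1) (E n) B) (hyperfilter ℕ : Filter ℕ) (𝓝 0) :=
      squeeze_zero_norm (fun n => hg n B) (h1.mono_left hle)
    have h5 := (hm ((fun p => g * p) ⁻¹' B)).sub (hm B)
    have := tendsto_nhds_unique h5 h4
    linarith
  refine ⟨m, ?_, ?_, ?_, ?_, ?_⟩
  · intro B
    refine ge_of_tendsto' (hm B) fun n => (mn_basic (S := S) (n+1) (hE1 n) (hE n)).1 B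
  · refine tendsto_nhds_unique (hm _) ?_
    refine tendsto_const_nhds.congr fun n => ?_
    exact ((mn_basic (S := S) (n+1) (hE1 n) (hE n)).2.2.1).symm
  · intro A B h
    refine tendsto_nhds_unique (hm _) (((hm A).add (hm B)).congr fun n => ?_)
    exact ((mn_basic (S := S) (n+1) (hE1 n) (hE n)).2.2.2 A B h).symm
  · intro c hc
    refine hinv _ fun n B => ?_
    refine mn_inv (n+1) (by omega) (hE1 n) (hE n) (dir 0 c) (TA_dir c) c (GP_dir _ (by omega) c) (Or.inr (dir_fix _ c))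
      ?_ (by positivity) ?_ B
    · exact_mod_cast count_dir (n+1) c
    · rw [← hcard]
      exact hEF n c hc
  · intro a
    refine hinv _ fun n B => ?_
    refine mn_inv (n+1) (by omega) (hE1 n) (hE n) (root a) (TA_root a) 1 (GP_root _ (by omega) a) (Or.inl rfl)
      ?_ (by positivity) ?_ B
    · exact_mod_cast count_root (n+1) (by omega) a
    · have : ((E n).filter fun k => (1 : S.H)⁻¹ * k ∈ E n) = E n := by
        ext k; simp
      rw [this]
      have h1 : 0 ≤ 1 / ((n:ℝ) + 1) := by positivity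
      have h2 : (0:ℝ) ≤ (E n).card := by positivity
      nlinarith

/-- amenability -/
def Amenable (G : Type) [Group G] : Prop := ∃ m : Set G → ℝ, (∀ A, 0 ≤ m A) ∧ m Set.univ = 1 ∧
  (∀ A B, Disjoint A B → m (A ∪ B) = m A + m B) ∧ ∀ g A, m ((fun x => g * x) ⁻¹' A) = m A

theorem amenable_of_mean {P : Type} [Group P] (G : Subgroup P) (m : Set P → ℝ) (h0 : ∀ B, 0 ≤ m B) (h1 : m Set.univ = 1)
    (h2 : ∀ A B, Disjoint A B → m (A ∪ B) = m A + m B) (h3 : ∀ g ∈ G, ∀ B, m ((fun p => g * p) ⁻¹' B) = m B) :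
    Amenable G := by
  have hq : ∀ p : P, p * (Quotient.out (Quotient.mk (QuotientGroup.rightRel G) p))⁻¹ ∈ G := by
    intro p
    have := Quotient.exact (Quotient.out_eq (Quotient.mk (QuotientGroup.rightRel G) p))
    exact QuotientGroup.rightRel_apply.1 this
  set r : P → G := fun p => ⟨p * (Quotient.out (Quotient.mk (QuotientGroup.rightRel G) p))⁻¹, hq p⟩ with hr
  have hrg : ∀ (g : G) (p : P), r (g * p) = g * r p := by
    intro g p
    apply Subtype.ext
    have : Quotient.mk (QuotientGroup.rightRel G) ((g : P) * p) = Quotient.mk (QuotientGroup.rightRel G) p := by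
      refine Quotient.sound (QuotientGroup.rightRel_apply.2 ?_)
      rw [mul_inv_rev, ← mul_assoc, mul_inv_cancel, one_mul]
      exact inv_mem g.2
    simp only [hr]
    rw [this]
    show (g : P) * p * _ = (g : P) * (p * _)
    rw [mul_assoc]
  refine ⟨fun A => m (r ⁻¹' A), fun A => h0 _, by simpa using h1, ?_, ?_⟩
  · intro A B h
    exact h2 _ _ (h.preimage r)
  · intro g A
    show m (r ⁻¹' ((fun x => g * x) ⁻¹' A)) = m (r ⁻¹' A)
    rw [← h3 g g.2 (r ⁻¹' A)]
    congr 1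
    ext p
    show g * r p ∈ A ↔ r (g * p) ∈ A
    rw [hrg]

theorem amenable_closure (T : Set S.H) (hF : Fol S.H T) (hT : Subgroup.closure T = ⊤) :
    Amenable (Subgroup.closure (Set.range (dir (S := S) 0) ∪ Set.range (root (S := S)))) := by
  obtain ⟨m, m0, m1, m2, m3, m4⟩ := exists_mean (S := S) T hF
  refine amenable_of_mean _ m m0 m1 m2 ?_
  -- invariance set is a subgroup
  let K : Subgroup (Equiv.Perm S.Bd) :=
    { carrier := {g | ∀ B, m ((fun p => g * p) ⁻¹' B) = m B}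
      mul_mem' := by
        intro a b ha hb B
        have : (fun p => a * b * p) ⁻¹' B = (fun p => b * p) ⁻¹' ((fun p => a * p) ⁻¹' B) := by
          ext p; simp [mul_assoc]
        rw [this, hb, ha]
      one_mem' := by
        intro B
        simp
      inv_mem' := by
        intro a ha B
        rw [← ha ((fun p => a⁻¹ * p) ⁻¹' B)]
        congr 1
        ext p; simp }
  have hK : Subgroup.closure (Set.range (dir (S := S) 0) ∪ Set.range (root (S := S))) ≤ K := by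
    rw [Subgroup.closure_le]
    rintro _ (⟨h, rfl⟩ | ⟨a, rfl⟩)
    · have h1 : (⊤ : Subgroup S.H) ≤ K.comap (dir 0) := by
        rw [← hT, Subgroup.closure_le]
        intro c hc
        exact m3 c hc
      exact h1 (Subgroup.mem_top h)
    · exact m4 a
  exact fun g hg => hK hg

end Pool.Agent.Helper889.Br
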