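import Mathlib
import Pool.Agent.Helper889.Br.Tree

set_option autoImplicit false
set_option linter.unusedSectionVars false

namespace Pool.Agent.Helper889.Br

variable {S : Sys}

/-- base point -/
def oo : S.Bd := fun i => S.o i

/-- `g` has germ `h` at `x`, seen from level `n` on -/
def GermAt (g : Equiv.Perm S.Bd) (x : S.Bd) (h : S.H) (n : ℕ) : Prop :=
  (∀ i, n ≤ i → x i = S.o i) ∧ (∀ i, n ≤ i → g x i = S.o i) ∧
    ∀ z : S.Bd, (∀ i < n, z i = x i) → g z = fun i => if i < n then g x i else S.dirPt n h z i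

theorem dirPt_shift {n : ℕ} (h : S.H) {z : S.Bd} (hz : z n = S.o n) : S.dirPt n h z = S.dirPt (n+1) h z := by
  have hS : ∀ k, S.Sg n k z ↔ S.Sg (n+1) k z := by
    intro k
    constructor
    · rintro ⟨h1, h2, h3⟩
      refine ⟨?_, h2, fun j hj hk => h3 j (by omega) hk⟩
      by_contra hcon
      have : k = n := by omega
      subst this
      rw [hz] at h2
      exact S.hot _ h2
    · rintro ⟨h1, h2, h3⟩
      refine ⟨by omega, h2, fun j hj hk => ?_⟩
      by_cases hjn : j = n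
      · subst hjn; exact hz
      · exact h3 j (by omega) hk
  funext i
  cases i with
  | zero => rfl
  | succ k =>
    by_cases hs : S.Sg n k z
    · rw [dirPt_succ_pos _ hs, dirPt_succ_pos _ ((hS k).1 hs)]
    · rw [dirPt_succ_neg _ hs, dirPt_succ_neg _ (fun hc => hs ((hS k).2 hc))]

theorem GermAt_succ {g : Equiv.Perm S.Bd} {x : S.Bd} {h : S.H} {n : ℕ} (hg : GermAt g x h n) : GermAt g x h (n+1) := by
  obtain ⟨h1, h2, h3⟩ := hg
  refine ⟨fun i hi => h1 i (by omega), fun i hi => h2 i (by omega), fun z hz => ?_⟩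
  rw [h3 z (fun i hi => hz i (by omega))]
  have hzn : z n = S.o n := by rw [hz n (by omega), h1 n le_rfl]
  funext i
  by_cases hi : i < n
  · rw [if_pos hi, if_pos (by omega)]
  · rw [if_neg hi]
    by_cases hi' : i < n + 1
    · have : i = n := by omega
      subst this
      rw [if_pos hi', dirPt_le h z le_rfl, hzn, h2 _ le_rfl]
    · rw [if_neg hi', dirPt_shift h hzn]

theorem GermAt_mono {g : Equiv.Perm S.Bd} {x : S.Bd} {h : S.H} {n m : ℕ} (hg : GermAt g x h n) (hnm : n ≤ m) :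
    GermAt g x h m := by
  induction m, hnm using Nat.le_induction with
  | base => exact hg
  | succ m _ ih => exact GermAt_succ ih

theorem Germ_unique (hf : ∀ h : S.H, h ≠ 1 → ∀ n, ∃ k, n ≤ k ∧ S.ρ k h ≠ 1) {g : Equiv.Perm S.Bd} {x : S.Bd}
    {h h' : S.H} {n n' : ℕ} (hg : GermAt g x h n) (hg' : GermAt g x h' n') : h = h' := by
  by_contra hne
  have a1 := GermAt_mono hg (le_max_left n n')
  have a2 := GermAt_mono hg' (le_max_right n n')
  set m := max n n'
  obtain ⟨k, hk, hρ⟩ := hf (h⁻¹ * h') (fun hc => hne (inv_mul_eq_one.1 hc)) m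
  obtain ⟨y, hy⟩ : ∃ y, S.ρ k (h⁻¹ * h') y ≠ y := by
    by_contra hcon
    push Not at hcon
    exact hρ (Equiv.ext hcon)
  set z : S.Bd := fun i => if i < m then x i else if i < k then S.o i else if i = k then S.t i
    else if e : i = k + 1 then e ▸ y else S.o i with hz
  have hzm : ∀ i < m, z i = x i := fun i hi => by rw [hz]; simp only; rw [if_pos hi]
  have hs : S.Sg m k z := by
    refine ⟨hk, ?_, fun j hj hjk => ?_⟩
    · rw [hz]; simp only
      rw [if_neg (by omega), if_neg (by omega)]; simp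
    · rw [hz]; simp only
      rw [if_neg (by omega), if_pos hjk]
  have hzk : z (k+1) = y := by
    rw [hz]; simp only
    rw [if_neg (by omega), if_neg (by omega), if_neg (by omega)]; simp
  have e1 := congrFun (a1.2.2 z hzm) (k+1)
  have e2 := congrFun (a2.2.2 z hzm) (k+1)
  rw [if_neg (by omega), dirPt_succ_pos _ hs, hzk] at e1 e2
  apply hy
  rw [map_mul, Equiv.Perm.mul_apply, ← e2, e1, map_inv]
  exact (S.ρ k h).symm_apply_apply y

theorem Germ_mul {g g' : Equiv.Perm S.Bd} {x : S.Bd} {h h' : S.H} {n n' : ℕ} (hg : GermAt g x h n)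
    (hg' : GermAt g' (g x) h' n') : GermAt (g' * g) x (h' * h) (max n n') := by
  obtain ⟨a1, a2, a3⟩ := GermAt_mono hg (le_max_left n n')
  obtain ⟨b1, b2, b3⟩ := GermAt_mono hg' (le_max_right n n')
  set m := max n n'
  refine ⟨a1, b2, fun z hz => ?_⟩
  have e1 := a3 z hz
  rw [Equiv.Perm.mul_apply, b3 (g z) (fun i hi => by rw [e1]; simp only; rw [if_pos hi])]
  funext i
  by_cases hi : i < m
  · rw [if_pos hi, if_pos hi]; rfl
  · rw [if_neg hi, if_neg hi, ← dirPt_mul]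
    refine dirPt_congr _ (fun j hj _ => ?_) (by omega)
    rw [e1]; simp only
    rw [if_neg (by omega)]

theorem Germ_inv {g : Equiv.Perm S.Bd} {x : S.Bd} {h : S.H} {n : ℕ} (hg : GermAt g x h n) :
    GermAt g⁻¹ (g x) h⁻¹ n := by
  obtain ⟨a1, a2, a3⟩ := hg
  have e0 : g⁻¹ (g x) = x := g.symm_apply_apply x
  refine ⟨a2, fun i hi => by rw [e0]; exact a1 i hi, fun w hw => ?_⟩
  rw [e0]
  set z : S.Bd := fun i => if i < n then x i else S.dirPt n h⁻¹ w i with hz
  have hgz : g z = w := by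
    rw [a3 z (fun i hi => by rw [hz]; simp only; rw [if_pos hi])]
    funext i
    by_cases hi : i < n
    · rw [if_pos hi, hw i hi]
    · rw [if_neg hi]
      have : S.dirPt n h z i = S.dirPt n h (S.dirPt n h⁻¹ w) i := by
        refine dirPt_congr _ (fun j hj _ => ?_) (by omega)
        rw [hz]; simp only
        rw [if_neg (by omega)]
      rw [this, dirPt_mul, mul_inv_cancel, dirPt_one]
  have : g⁻¹ w = z := by rw [← hgz]; exact g.symm_apply_apply z
  rw [this]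

theorem Germ_one {x : S.Bd} {n : ℕ} (hx : ∀ i, n ≤ i → x i = S.o i) : GermAt (1 : Equiv.Perm S.Bd) x 1 n := by
  refine ⟨hx, hx, fun z hz => ?_⟩
  funext i
  rw [dirPt_one]
  split_ifs with hi
  · exact hz i hi
  · rfl

theorem Germ_root (a : Equiv.Perm (S.X 0)) {x : S.Bd} {n : ℕ} (hn : 1 ≤ n) (hx : ∀ i, n ≤ i → x i = S.o i) :
    GermAt (root a) x 1 n := by
  refine ⟨hx, fun i hi => ?_, fun z hz => ?_⟩
  · obtain ⟨j, rfl⟩ : ∃ j, i = j + 1 := ⟨i - 1, by omega⟩
    exact hx _ hi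
  · funext i
    rw [dirPt_one]
    by_cases hi : i < n
    · rw [if_pos hi]
      cases i with
      | zero => rw [root_zero, root_zero, hz 0 hi]
      | succ j => rw [root_succ, root_succ, hz _ hi]
    · rw [if_neg hi]
      obtain ⟨j, rfl⟩ : ∃ j, i = j + 1 := ⟨i - 1, by omega⟩
      rfl

theorem Germ_dir_oo (h : S.H) : GermAt (dir 0 h) (oo (S := S)) h 0 := by
  refine ⟨fun _ _ => rfl, fun i _ => ?_, fun z _ => ?_⟩
  · have hno : ∀ k, ¬ S.Sg 0 k (oo (S := S)) := fun k hk => S.hot k hk.2.1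
    rw [dir_apply]
    cases i with
    | zero => rfl
    | succ k => rw [dirPt_succ_neg _ (hno k)]; rfl
  · funext i
    rw [if_neg (by omega), dir_apply]

theorem dir_oo (h : S.H) : dir 0 h (oo (S := S)) = oo := by
  funext i
  exact (Germ_dir_oo h).2.1 i (Nat.zero_le _)

theorem Germ_dir_ne (h : S.H) {x : S.Bd} {n : ℕ} (hx : ∀ i, n ≤ i → x i = S.o i) (hne : x ≠ oo) :
    ∃ m, GermAt (dir 0 h) x 1 m := by
  obtain ⟨K, hK⟩ : ∃ K, x K ≠ S.o K := by
    by_contra hcon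
    push Not at hcon
    exact hne (funext hcon)
  have hKn : K < n := by
    by_contra hcon
    exact hK (hx K (by omega))
  have hno : ∀ z : S.Bd, (∀ i < n + 1, z i = x i) → ∀ k, n ≤ k → ¬ S.Sg 0 k z := by
    intro z hz k hk hs
    have := hs.2.2 K (Nat.zero_le _) (by omega)
    rw [hz K (by omega)] at this
    exact hK this
  refine ⟨n + 1, fun i hi => hx i (by omega), fun i hi => ?_, fun z hz => ?_⟩
  · obtain ⟨j, rfl⟩ : ∃ j, i = j + 1 := ⟨i - 1, by omega⟩
    rw [dir_apply, dirPt_succ_neg _ (hno x (fun _ _ => rfl) j (by omega))]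
    exact hx _ (by omega)
  · funext i
    rw [dirPt_one, dir_apply, dir_apply]
    by_cases hi : i < n + 1
    · rw [if_pos hi]
      exact dirPt_congr h (fun j _ hj => hz j (by omega)) (Nat.zero_le _)
    · rw [if_neg hi]
      obtain ⟨j, rfl⟩ : ∃ j, i = j + 1 := ⟨i - 1, by omega⟩
      rw [dirPt_succ_neg _ (hno z hz j (by omega))]

/-- the group -/
def GG (S : Sys) : Subgroup (Equiv.Perm S.Bd) :=
  Subgroup.closure (Set.range (dir (S := S) 0) ∪ Set.range (root (S := S)))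

theorem Germ_exists_aux {g : Equiv.Perm S.Bd} (hg : g ∈ GG S) : ∀ x : S.Bd, (∃ n, ∀ i, n ≤ i → x i = S.o i) →
    (∃ h n, GermAt g x h n) ∧ (∃ h n, GermAt g⁻¹ x h n) := by
  unfold GG at hg
  induction hg using Subgroup.closure_induction with
  | mem g hg =>
    rintro x ⟨n, hx⟩
    have key : ∀ g : Equiv.Perm S.Bd, (g ∈ Set.range (dir (S := S) 0) ∪ Set.range (root (S := S))) → ∃ h n, GermAt g x h n := by
      intro g hg
      rcases hg with ⟨h, rfl⟩ | ⟨a, rfl⟩
      · by_cases hxo : x = oo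
        · subst hxo; exact ⟨h, 0, Germ_dir_oo h⟩
        · obtain ⟨m, hm⟩ := Germ_dir_ne h hx hxo
          exact ⟨1, m, hm⟩
      · exact ⟨1, n + 1, Germ_root a (by omega) fun i hi => hx i (by omega)⟩
    refine ⟨key g hg, key g⁻¹ ?_⟩
    rcases hg with ⟨h, rfl⟩ | ⟨a, rfl⟩
    · left; exact ⟨h⁻¹, map_inv _ _⟩
    · right; exact ⟨a⁻¹, map_inv _ _⟩
  | one =>
    rintro x ⟨n, hx⟩
    rw [inv_one]
    exact ⟨⟨1, n, Germ_one hx⟩, ⟨1, n, Germ_one hx⟩⟩
  | mul a b _ _ iha ihb =>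
    rintro x hx
    constructor
    · obtain ⟨h, n, h1⟩ := (ihb x hx).1
      obtain ⟨h', n', h2⟩ := (iha (b x) ⟨n, h1.2.1⟩).1
      exact ⟨h' * h, _, Germ_mul h1 h2⟩
    · rw [mul_inv_rev]
      obtain ⟨h, n, h1⟩ := (iha x hx).2
      obtain ⟨h', n', h2⟩ := (ihb (a⁻¹ x) ⟨n, h1.2.1⟩).2
      exact ⟨h' * h, _, Germ_mul h1 h2⟩
  | inv a _ ih =>
    rintro x hx
    rw [inv_inv]
    exact (ih x hx).symm

theorem Germ_exists {g : Equiv.Perm S.Bd} (hg : g ∈ GG S) (x : S.Bd) (hx : ∃ n, ∀ i, n ≤ i → x i = S.o i) :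
    ∃ h n, GermAt g x h n := (Germ_exists_aux hg x hx).1

/-- the germ of `g⁻¹` at the base point -/
noncomputable def gam (g : GG S) : S.H :=
  (Germ_exists (inv_mem g.2) oo ⟨0, fun _ _ => rfl⟩).choose

theorem gam_spec (g : GG S) : ∃ n, GermAt (g : Equiv.Perm S.Bd)⁻¹ oo (gam g) n :=
  (Germ_exists (inv_mem g.2) oo ⟨0, fun _ _ => rfl⟩).choose_spec

/-- directed elements in the group -/
noncomputable def dirG : S.H →* GG S :=
  (dir 0).codRestrict (GG S) fun h => Subgroup.subset_closure (Or.inl ⟨h, rfl⟩)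

/-- rooted elements in the group -/
noncomputable def rootG : Equiv.Perm (S.X 0) →* GG S :=
  (root (S := S)).codRestrict (GG S) fun a => Subgroup.subset_closure (Or.inr ⟨a, rfl⟩)

section
variable (hf : ∀ h : S.H, h ≠ 1 → ∀ n, ∃ k, n ≤ k ∧ S.ρ k h ≠ 1)
include hf

theorem gam_mul (g s : GG S) {h : S.H} {n : ℕ} (hs : GermAt (s : Equiv.Perm S.Bd)⁻¹ ((g : Equiv.Perm S.Bd)⁻¹ oo) h n) :
    gam (g * s) = h * gam g := by
  obtain ⟨m, hm⟩ := gam_spec g
  obtain ⟨m', hm'⟩ := gam_spec (g * s)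
  have h1 := Germ_mul hm hs
  have e : ((g * s : GG S) : Equiv.Perm S.Bd)⁻¹ = (s : Equiv.Perm S.Bd)⁻¹ * (g : Equiv.Perm S.Bd)⁻¹ := by
    rw [Subgroup.coe_mul, mul_inv_rev]
  rw [e] at hm'
  exact Germ_unique hf hm' h1

theorem gam_root (g : GG S) (a : Equiv.Perm (S.X 0)) : gam (g * rootG a) = gam g := by
  obtain ⟨m, hm⟩ := gam_spec g
  have h1 : GermAt ((rootG a : GG S) : Equiv.Perm S.Bd)⁻¹ ((g : Equiv.Perm S.Bd)⁻¹ oo) 1 (m+1) := by
    have e : ((rootG a : GG S) : Equiv.Perm S.Bd)⁻¹ = root a⁻¹ := (map_inv (root (S := S)) a).symm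
    rw [e]
    exact Germ_root a⁻¹ (by omega) fun i hi => hm.2.1 i (by omega)
  rw [gam_mul hf g _ h1, one_mul]

theorem gam_dir_eq (g : GG S) (h : S.H) (hg : (g : Equiv.Perm S.Bd)⁻¹ oo = oo) : gam (g * dirG h) = h⁻¹ * gam g := by
  refine gam_mul hf g _ (n := 0) ?_
  have e : ((dirG h : GG S) : Equiv.Perm S.Bd)⁻¹ = dir 0 h⁻¹ := (map_inv (dir (S := S) 0) h).symm
  rw [hg, e]
  exact Germ_dir_oo _

theorem gam_dir_ne (g : GG S) (h : S.H) (hg : (g : Equiv.Perm S.Bd)⁻¹ oo ≠ oo) : gam (g * dirG h) = gam g := by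
  obtain ⟨m, hm⟩ := gam_spec g
  have e : ((dirG h : GG S) : Equiv.Perm S.Bd)⁻¹ = dir 0 h⁻¹ := (map_inv (dir (S := S) 0) h).symm
  obtain ⟨m', hm'⟩ := Germ_dir_ne h⁻¹ hm.2.1 hg
  rw [← e] at hm'
  rw [gam_mul hf g _ hm', one_mul]

theorem gam_one : gam (1 : GG S) = 1 := by
  obtain ⟨m, hm⟩ := gam_spec (1 : GG S)
  have : GermAt ((1 : GG S) : Equiv.Perm S.Bd)⁻¹ oo (1 : S.H) 0 := by
    have e : ((1 : GG S) : Equiv.Perm S.Bd)⁻¹ = 1 := by simp
    rw [e]
    exact Germ_one fun _ _ => rfl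
  exact Germ_unique hf hm this

/-- lifting harmonic functions from the germ group -/
theorem lift_harmonic {J : Type} [Fintype J] (gen : J → S.H) (F : S.H → ℝ)
    (hF : ∀ v, (∑ j, F (v * gen j)) = Fintype.card J * F v) (g : GG S) :
    (∑ j : J ⊕ Equiv.Perm (S.X 0), F (gam (g * Sum.elim (fun j => dirG (gen j)) rootG j))⁻¹)
      = Fintype.card (J ⊕ Equiv.Perm (S.X 0)) * F (gam g)⁻¹ := by
  rw [Fintype.sum_sum_type, Fintype.card_sum]
  simp only [Sum.elim_inl, Sum.elim_inr, gam_root hf]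
  rw [Finset.sum_const, nsmul_eq_mul, Finset.card_univ]
  push_cast
  rw [add_mul]
  congr 1
  by_cases hg : (g : Equiv.Perm S.Bd)⁻¹ oo = oo
  · simp only [gam_dir_eq hf g _ hg, mul_inv_rev, inv_inv]
    exact hF _
  · simp only [gam_dir_ne hf g _ hg]
    rw [Finset.sum_const, nsmul_eq_mul, Finset.card_univ]

theorem gam_dirG (h : S.H) : (gam (dirG h))⁻¹ = h := by
  have := gam_dir_eq hf (1 : GG S) h (by simp)
  rw [one_mul, gam_one hf, mul_one] at this
  rw [this, inv_inv]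

end

end Pool.Agent.Helper889.Br
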