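import Mathlib
import Pool.Agent.Helper889.Br.Germ
import Pool.Agent.Helper889.Br.Count

set_option autoImplicit false
set_option linter.unusedSectionVars false

namespace Pool.Agent.Helper889.Br

open scoped commutatorElement

variable {S : Sys}

open Classical in
/-- the directed element placed at `o^n` -/
noncomputable def dd (n : ℕ) : S.H →* Equiv.Perm S.Bd where
  toFun := fun h => DD n (fun v => if v = ow n then h else 1)
  map_one' := by
    ext x : 1
    rw [DD_apply]
    split_ifs <;> rw [dirPt_one] <;> rfl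
  map_mul' := fun h h' => by
    rw [DD_mul]
    congr 1
    funext v
    split_ifs
    · rfl
    · rw [one_mul]

open Classical in
theorem dd_apply (n : ℕ) (h : S.H) (x : S.Bd) : dd n h x = S.dirPt n (if pre n x = ow n then h else 1) x := rfl

theorem dd_pos {n : ℕ} (h : S.H) {x : S.Bd} (hx : pre n x = ow n) : dd n h x = S.dirPt n h x := by
  rw [dd_apply, if_pos hx]

theorem dd_neg {n : ℕ} (h : S.H) {x : S.Bd} (hx : pre n x ≠ ow n) : dd n h x = x := by
  rw [dd_apply, if_neg hx, dirPt_one]

theorem dd_zero (h : S.H) : dd 0 h = dir 0 h := by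
  ext x : 1
  rw [dd_pos h (funext fun i => i.elim0), dir_apply]

theorem pre_mono {n m : ℕ} (hnm : n ≤ m) {x y : S.Bd} (h : pre m x = pre m y) : pre n x = pre n y := by
  rw [pre_eq_iff] at h ⊢
  exact fun i hi => h i (by omega)

theorem pre_dirPt_succ (n : ℕ) (h : S.H) (x : S.Bd) : pre (n+1) (S.dirPt n h x) = pre (n+1) x := by
  funext i
  exact dirPt_le h x (by have := i.2; omega)

theorem pre_dd (n : ℕ) (h : S.H) (x : S.Bd) : pre (n+1) (dd n h x) = pre (n+1) x := by
  by_cases hx : pre n x = ow n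
  · rw [dd_pos h hx, pre_dirPt_succ]
  · rw [dd_neg h hx]

/-- commutators of elements which are diagonal at level `m` -/
theorem comm_dd (m : ℕ) (a c : Equiv.Perm S.Bd) (h1 h2 : S.H) (ha : ∀ x, pre m (a x) = pre m x)
    (hc : ∀ x, pre m (c x) = pre m x) (ha1 : ∀ x, pre m x = ow m → a x = S.dirPt m h1 x)
    (hc1 : ∀ x, pre m x = ow m → c x = S.dirPt m h2 x)
    (hac : ∀ v : S.V m, v ≠ ow m → (∀ x, pre m x = v → a x = x) ∨ (∀ x, pre m x = v → c x = x)) :
    a * c * a⁻¹ * c⁻¹ = dd m (h1 * h2 * h1⁻¹ * h2⁻¹) := by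
  have ea : ∀ x, a (a⁻¹ x) = x := fun x => a.apply_symm_apply x
  have ec : ∀ x, c (c⁻¹ x) = x := fun x => c.apply_symm_apply x
  have ea' : ∀ x, a⁻¹ (a x) = x := fun x => a.symm_apply_apply x
  have ec' : ∀ x, c⁻¹ (c x) = x := fun x => c.symm_apply_apply x
  have hai : ∀ x, pre m (a⁻¹ x) = pre m x := fun x => by rw [← ha, ea]
  have hci : ∀ x, pre m (c⁻¹ x) = pre m x := fun x => by rw [← hc, ec]
  have hai1 : ∀ x, pre m x = ow m → a⁻¹ x = S.dirPt m h1⁻¹ x := fun x hx => by
    have : a (S.dirPt m h1⁻¹ x) = x := by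
      rw [ha1 _ (by rw [pre_dirPt]; exact hx), dirPt_mul, mul_inv_cancel, dirPt_one]
    rw [← this, ea']
    rw [this]
  have hci1 : ∀ x, pre m x = ow m → c⁻¹ x = S.dirPt m h2⁻¹ x := fun x hx => by
    have : c (S.dirPt m h2⁻¹ x) = x := by
      rw [hc1 _ (by rw [pre_dirPt]; exact hx), dirPt_mul, mul_inv_cancel, dirPt_one]
    rw [← this, ec']
    rw [this]
  ext x : 1
  rw [Equiv.Perm.mul_apply, Equiv.Perm.mul_apply, Equiv.Perm.mul_apply]
  by_cases hx : pre m x = ow m
  · rw [dd_pos _ hx, hci1 x hx, hai1 _ (by rw [pre_dirPt]; exact hx), dirPt_mul, hc1 _ (by rw [pre_dirPt]; exact hx),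
      dirPt_mul, ha1 _ (by rw [pre_dirPt]; exact hx), dirPt_mul]
    simp only [mul_assoc]
  · rw [dd_neg _ hx]
    rcases hac _ hx with h | h
    · have e1 : a⁻¹ (c⁻¹ x) = c⁻¹ x := by
        conv_lhs => rw [← h (c⁻¹ x) (hci x)]
        rw [ea']
      rw [e1, ec, h x rfl]
    · have e1 : c⁻¹ x = x := by
        conv_lhs => rw [← h x rfl]
        rw [ec']
      rw [e1, h _ (hai x), ea]

section
variable (α : ∀ k, Equiv.Perm (Fin 5) →* Equiv.Perm (S.X k)) (β : Equiv.Perm (Fin 5) →* S.H)
  (hβ : ∀ k q, S.ρ k (β q) = α (k+1) q)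
  (a1 : ∀ k q, q 0 = 0 → α k q (S.o k) = S.o k)
  (a2 : ∀ k q, q 1 ≠ 1 → α k q (S.t k) ≠ S.t k)
  (a3 : ∀ k q, q 1 = 0 → α k q (S.t k) = S.o k)

/-- `g` acts below `o^n` as `q` on the next letter -/
def Bp (n : ℕ) (q : Equiv.Perm (Fin 5)) (g : Equiv.Perm S.Bd) : Prop :=
  ∀ x, pre n x = ow n → g x = Function.update x n (α n q (x n))

theorem pre_update (n : ℕ) (x : S.Bd) (y : S.X n) : pre n (Function.update x n y) = pre n x := by
  rw [pre_eq_iff]
  intro i hi
  rw [Function.update_of_ne (by omega)]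

theorem Bp_inv {n : ℕ} {q : Equiv.Perm (Fin 5)} {g : Equiv.Perm S.Bd} (h : Bp α n q g) {x : S.Bd}
    (hx : pre n x = ow n) : g⁻¹ x = Function.update x n (α n q⁻¹ (x n)) := by
  have : g (Function.update x n (α n q⁻¹ (x n))) = x := by
    rw [h _ (by rw [pre_update]; exact hx)]
    simp only [Function.update_self, Function.update_idem]
    have : α n q (α n q⁻¹ (x n)) = x n := by
      rw [map_inv]; exact (α n q).apply_symm_apply _
    rw [this, Function.update_eq_self]
  conv_lhs => rw [← this]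
  exact g.symm_apply_apply _

theorem Bp_out {n : ℕ} {q : Equiv.Perm (Fin 5)} {g : Equiv.Perm S.Bd} (h : Bp α n q g) {x : S.Bd}
    (hx : pre n x ≠ ow n) : pre n (g⁻¹ x) ≠ ow n := by
  intro hc
  apply hx
  have := h _ hc
  have e : g (g⁻¹ x) = x := g.apply_symm_apply x
  rw [e] at this
  rw [this, pre_update, hc]

include hβ a1 a2 in
theorem step_a {n : ℕ} {b : Equiv.Perm S.Bd} {q : Equiv.Perm (Fin 5)} (hb : Bp α n q b) (hq0 : q 0 = 0) (hq1 : q 1 ≠ 1)
    (h1 h2 : S.H) :
    dd n h1 * (b * dd n h2 * b⁻¹) * (dd n h1)⁻¹ * (b * dd n h2 * b⁻¹)⁻¹ = dd (n+1) (h1 * h2 * h1⁻¹ * h2⁻¹) := by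
  have hout : ∀ x, pre n x ≠ ow n → (b * dd n h2 * b⁻¹) x = x := by
    intro x hx
    rw [Equiv.Perm.mul_apply, Equiv.Perm.mul_apply, dd_neg _ (Bp_out α hb hx)]
    exact b.apply_symm_apply x
  have hin : ∀ x, pre n x = ow n → (b * dd n h2 * b⁻¹) x
      = Function.update (S.dirPt n h2 (Function.update x n (α n q⁻¹ (x n)))) n (x n) := by
    intro x hx
    have hp : pre n (Function.update x n (α n q⁻¹ (x n))) = ow n := by rw [pre_update]; exact hx
    rw [Equiv.Perm.mul_apply, Equiv.Perm.mul_apply, Bp_inv α hb hx, dd_pos _ hp, hb _ (by rw [pre_dirPt]; exact hp)]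
    congr 1
    rw [dirPt_le _ _ le_rfl, Function.update_self, map_inv]
    exact (α n q).apply_symm_apply _
  have hqo : α n q⁻¹ (S.o n) = S.o n := by
    conv_lhs => rw [← a1 n q hq0]
    rw [map_inv]; exact (α n q).symm_apply_apply _
  have hqt : ∀ y, α n q⁻¹ y = S.t n → y ≠ S.t n ∧ y ≠ S.o n := by
    intro y hy
    have hy' : y = α n q (S.t n) := by
      rw [← hy, map_inv]; exact ((α n q).apply_symm_apply _).symm
    refine ⟨by rw [hy']; exact a2 n q hq1, fun hc => ?_⟩
    rw [hc, hqo] at hy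
    exact S.hot n hy
  have hqo' : ∀ y, α n q⁻¹ y = S.o n → y = S.o n := by
    intro y hy
    have : y = α n q (S.o n) := by
      rw [← hy, map_inv]; exact ((α n q).apply_symm_apply _).symm
    rw [this, a1 n q hq0]
  have hdir : ∀ (h : S.H) (x : S.Bd), x n ≠ S.o n → x n ≠ S.t n → S.dirPt n h x = x := by
    intro h x ho ht
    funext i
    cases i with
    | zero => rfl
    | succ k =>
      refine dirPt_succ_neg _ fun hs => ?_
      rcases hs.1.lt_or_eq with hlt | heq
      · exact ho (hs.2.2 n le_rfl hlt)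
      · subst heq; exact ht hs.2.1
  refine comm_dd (n+1) _ _ h1 h2 (fun x => pre_dd n h1 x) ?_ ?_ ?_ ?_
  · intro x
    by_cases hx : pre n x = ow n
    · rw [hin x hx]
      funext i
      show Function.update (S.dirPt n h2 (Function.update x n (α n q⁻¹ (x n)))) n (x n) (i : ℕ) = x i
      obtain ⟨i, hi⟩ := i
      show Function.update (S.dirPt n h2 (Function.update x n (α n q⁻¹ (x n)))) n (x n) i = x i
      by_cases hin' : i = n
      · subst hin'; rw [Function.update_self]
      · rw [Function.update_of_ne hin', dirPt_le _ _ (by omega), Function.update_of_ne hin']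
    · rw [hout x hx]
  · intro x hx
    have hx' : pre n x = ow n := by
      funext i; exact congrFun hx ⟨i, by omega⟩
    have hxn : x n = S.o n := congrFun hx ⟨n, by omega⟩
    rw [dd_pos h1 hx', dirPt_shift h1 hxn]
  · intro x hx
    have hx' : pre n x = ow n := by
      funext i; exact congrFun hx ⟨i, by omega⟩
    have hxn : x n = S.o n := congrFun hx ⟨n, by omega⟩
    rw [hin x hx', hxn, hqo]
    have e1 : Function.update x n (S.o n) = x := by rw [← hxn, Function.update_eq_self]
    rw [e1, ← dirPt_shift h2 hxn]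
    have : S.o n = S.dirPt n h2 x n := by rw [dirPt_le _ _ le_rfl, hxn]
    rw [this, Function.update_eq_self]
  · intro v hv
    by_cases hvn : v ⟨n, by omega⟩ = S.t n
    · right
      intro x hx
      by_cases hx' : pre n x = ow n
      · have hxn : x n = S.t n := by rw [← hvn, ← hx]; rfl
        rw [hin x hx', hdir]
        · rw [Function.update_idem, Function.update_eq_self]
        · rw [Function.update_self, hxn]
          intro hc
          exact S.hot n (hqo' _ hc).symm
        · rw [Function.update_self, hxn]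
          intro hc
          exact (hqt _ hc).1 rfl
      · exact hout x hx'
    · left
      intro x hx
      by_cases hx' : pre n x = ow n
      · rw [dd_pos h1 hx', hdir]
        · intro hxn
          apply hv
          rw [← hx]
          funext i
          obtain ⟨i, hi⟩ := i
          by_cases hin' : i = n
          · subst hin'; exact hxn
          · exact congrFun hx' ⟨i, by omega⟩
        · intro hc
          apply hvn
          rw [← hx]; exact hc
      · exact dd_neg h1 hx'

include hβ a3 in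
theorem step_b {n : ℕ} {b : Equiv.Perm S.Bd} {q q' : Equiv.Perm (Fin 5)} (hb : Bp α n q b) (hq : q 1 = 0) :
    Bp α (n+1) q' (b * dd n (β q') * b⁻¹) := by
  intro x hx
  have hx' : pre n x = ow n := by
    funext i; exact congrFun hx ⟨i, by omega⟩
  have hxn : x n = S.o n := congrFun hx ⟨n, by omega⟩
  have hqo : α n q⁻¹ (S.o n) = S.t n := by
    rw [← a3 n q hq, map_inv]; exact (α n q).symm_apply_apply _
  have hp : pre n (Function.update x n (S.t n)) = ow n := by rw [pre_update]; exact hx'
  rw [Equiv.Perm.mul_apply, Equiv.Perm.mul_apply, Bp_inv α hb hx', hxn, hqo, dd_pos _ hp, hb _ (by rw [pre_dirPt]; exact hp),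
    dirPt_le _ _ le_rfl, Function.update_self, a3 n q hq]
  have hs : S.Sg n n (Function.update x n (S.t n)) := ⟨le_rfl, Function.update_self _ _ _, fun j h1 h2 => by omega⟩
  funext i
  by_cases hin : i = n
  · subst hin
    rw [Function.update_self, Function.update_of_ne (by omega), hxn]
  · rw [Function.update_of_ne hin]
    by_cases hin1 : i = n + 1
    · subst hin1
      rw [dirPt_succ_pos _ hs, Function.update_self, Function.update_of_ne (by omega), hβ]
    · rw [Function.update_of_ne hin1]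
      cases i with
      | zero => rw [dirPt_zero, Function.update_of_ne hin]
      | succ k =>
        rw [dirPt_succ_neg, Function.update_of_ne hin]
        intro hs'
        exact hin1 (by rw [Sg_unique hs hs'])

include hβ a1 a2 a3 in
theorem dd_mem (n : ℕ) : (∀ q ∈ alternatingGroup (Fin 5), dd n (β q) ∈ GG S) ∧
    (∀ q ∈ alternatingGroup (Fin 5), ∃ g ∈ GG S, Bp α n q g) := by
  have m1 : Equiv.swap (1 : Fin 5) 2 * Equiv.swap 3 4 ∈ alternatingGroup (Fin 5) := by
    rw [Equiv.Perm.mem_alternatingGroup]; decide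
  have m2 : Equiv.swap (0 : Fin 5) 1 * Equiv.swap 2 3 ∈ alternatingGroup (Fin 5) := by
    rw [Equiv.Perm.mem_alternatingGroup]; decide
  induction n with
  | zero =>
    constructor
    · intro q _
      rw [dd_zero]
      exact Subgroup.subset_closure (Or.inl ⟨_, rfl⟩)
    · intro q _
      refine ⟨root (α 0 q), Subgroup.subset_closure (Or.inr ⟨_, rfl⟩), fun x _ => ?_⟩
      funext i
      cases i with
      | zero => rw [root_zero, Function.update_self]
      | succ k => rw [root_succ, Function.update_of_ne (by omega)]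
  | succ n ih =>
    obtain ⟨ih1, ih2⟩ := ih
    constructor
    · obtain ⟨b, hbG, hb⟩ := ih2 _ m1
      have h1 : ⁅alternatingGroup (Fin 5), alternatingGroup (Fin 5)⁆ ≤ (GG S).comap ((dd (n+1)).comp β) := by
        rw [Subgroup.commutator_le]
        intro q1 hq1 q2 hq2
        have e : β ⁅q1, q2⁆ = β q1 * β q2 * (β q1)⁻¹ * (β q2)⁻¹ := by
          rw [commutatorElement_def, map_mul, map_mul, map_mul, map_inv, map_inv]
        rw [Subgroup.mem_comap, MonoidHom.comp_apply, e,
          ← step_a α β hβ a1 a2 hb (by decide) (by decide)]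
        have g1 := ih1 q1 hq1
        have g2 := mul_mem (mul_mem hbG (ih1 q2 hq2)) (inv_mem hbG)
        exact mul_mem (mul_mem (mul_mem g1 g2) (inv_mem g1)) (inv_mem g2)
      rw [commutator_alternatingGroup_eq_self (by simp)] at h1
      exact fun q hq => h1 hq
    · intro q hq
      obtain ⟨b, hbG, hb⟩ := ih2 _ m2
      exact ⟨_, mul_mem (mul_mem hbG (ih1 q hq)) (inv_mem hbG), step_b α β hβ a3 hb (by decide)⟩

end

theorem TA_GG {g : Equiv.Perm S.Bd} (hg : g ∈ GG S) : TA g := by
  unfold GG at hg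
  induction hg using Subgroup.closure_induction with
  | mem g hg =>
    rcases hg with ⟨h, rfl⟩ | ⟨a, rfl⟩
    · exact TA_dir h
    · exact TA_root a
  | one => exact TA_one
  | mul a b _ _ iha ihb => exact TA_mul iha ihb
  | inv a _ ih => exact TA_inv ih

/-- level transitivity -/
theorem trans_GG (ht : ∀ k (x : S.X (k+1)), ∃ h, S.ρ k h x = S.o (k+1)) (n : ℕ) :
    ∀ x : S.Bd, ∃ g ∈ GG S, pre n (g x) = ow n := by
  have pre_oo : ∀ n, pre n (oo (S := S)) = ow n := fun n => rfl
  induction n using Nat.strong_induction_on with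
  | _ n ih =>
    match n, ih with
    | 0, _ => exact fun x => ⟨1, one_mem _, funext fun i => i.elim0⟩
    | 1, _ =>
      intro x
      refine ⟨root (Equiv.swap (x 0) (S.o 0)), Subgroup.subset_closure (Or.inr ⟨_, rfl⟩), ?_⟩
      funext i
      obtain ⟨i, hi⟩ := i
      have : i = 0 := by omega
      subst this
      exact Equiv.swap_apply_left _ _
    | (n+2), ih =>
      have hT := ih (n+1) (by omega)
      -- move everything to `o^n t o`
      obtain ⟨gt, hgt, hgt'⟩ := hT (xk n)
      have key : ∀ x : S.Bd, ∃ g ∈ GG S, pre (n+2) (g x) = pre (n+2) (xk n) := by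
        intro x
        obtain ⟨g1, hg1, hg1'⟩ := hT x
        have h1 : pre (n+1) (gt⁻¹ (g1 x)) = pre (n+1) (xk n) := by
          have e : gt⁻¹ (gt (xk n)) = xk n := gt.symm_apply_apply _
          rw [← e, pre_eq_iff, ← TA_inv (TA_GG hgt), ← pre_eq_iff, hg1', hgt']
        obtain ⟨h, hh⟩ := ht n (gt⁻¹ (g1 x) (n+1))
        refine ⟨dir 0 h * gt⁻¹ * g1, mul_mem (mul_mem (Subgroup.subset_closure (Or.inl ⟨_, rfl⟩)) (inv_mem hgt)) hg1, ?_⟩
        rw [Equiv.Perm.mul_apply, Equiv.Perm.mul_apply, dir_apply]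
        have hxi : ∀ i, i < n + 1 → (gt⁻¹ (g1 x)) i = xk n i := pre_eq_iff.1 h1
        have hs : S.Sg 0 n (gt⁻¹ (g1 x)) := by
          refine ⟨Nat.zero_le _, ?_, fun j _ hj => ?_⟩
          · rw [hxi n (by omega)]; unfold xk; rw [if_pos rfl]
          · rw [hxi j (by omega)]; unfold xk; rw [if_neg (by omega)]
        rw [pre_eq_iff]
        intro i hi
        by_cases hi1 : i = n + 1
        · subst hi1
          rw [dirPt_succ_pos _ hs, hh]
          unfold xk
          rw [if_neg (by omega)]
        · rw [dirPt_before h hs (by omega), hxi i (by omega)]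
      intro x
      obtain ⟨g1, hg1, hg1'⟩ := key x
      obtain ⟨g2, hg2, hg2'⟩ := key oo
      refine ⟨g2⁻¹ * g1, mul_mem (inv_mem hg2) hg1, ?_⟩
      rw [Equiv.Perm.mul_apply, ← pre_oo (n+2)]
      have e : g2⁻¹ (g2 (oo (S := S))) = oo := g2.symm_apply_apply _
      rw [← e, pre_eq_iff, ← TA_inv (TA_GG hg2), ← pre_eq_iff, hg1', hg2']

end Pool.Agent.Helper889.Br
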