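import Mathlib
import Pool.Agent.Helper889.Br.Amen

set_option autoImplicit false
set_option linter.unusedSectionVars false

namespace Pool.Agent.Helper889.Br

open Finset

/-- the base group -/
abbrev B5 : Type := Fin 5 → ℤ

/-- the lamplighter group over `ℤ^5` -/
@[ext] structure Lp where
  f : B5 →₀ ZMod 2
  n : B5

namespace Lp

noncomputable instance : Mul Lp := ⟨fun a b => ⟨a.f + b.f.mapDomain (fun i => a.n + i), a.n + b.n⟩⟩
instance : One Lp := ⟨⟨0, 0⟩⟩
noncomputable instance : Inv Lp := ⟨fun a => ⟨a.f.mapDomain (fun i => -a.n + i), -a.n⟩⟩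

theorem mul_f (a b : Lp) : (a * b).f = a.f + b.f.mapDomain (fun i => a.n + i) := rfl
theorem mul_n (a b : Lp) : (a * b).n = a.n + b.n := rfl
theorem one_f : (1 : Lp).f = 0 := rfl
theorem one_n : (1 : Lp).n = 0 := rfl
theorem inv_f (a : Lp) : a⁻¹.f = a.f.mapDomain (fun i => -a.n + i) := rfl
theorem inv_n (a : Lp) : a⁻¹.n = -a.n := rfl

theorem add_self (f : B5 →₀ ZMod 2) : f + f = 0 := by
  ext i
  rw [Finsupp.add_apply, Finsupp.zero_apply]
  exact CharTwo.add_self_eq_zero _

noncomputable instance : Group Lp where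
  mul_assoc := fun a b c => by
    ext1
    · rw [mul_f, mul_f, mul_f, mul_f, mul_n, Finsupp.mapDomain_add, ← Finsupp.mapDomain_comp, add_assoc]
      congr 3
      funext i
      simp [add_assoc]
    · rw [mul_n, mul_n, mul_n, mul_n, add_assoc]
  one_mul := fun a => by
    ext1
    · rw [mul_f, one_f, one_n, zero_add]
      simp only [zero_add]
      exact Finsupp.mapDomain_id
    · rw [mul_n, one_n, zero_add]
  mul_one := fun a => by
    ext1
    · rw [mul_f, one_f, Finsupp.mapDomain_zero, add_zero]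
    · rw [mul_n, one_n, add_zero]
  inv_mul_cancel := fun a => by
    ext1
    · rw [mul_f, inv_f, inv_n, one_f]
      exact add_self _
    · rw [mul_n, inv_n, one_n, neg_add_cancel]

end Lp

/-- reduction modulo `m` -/
def pr (m : ℕ) (x : B5) : Fin 5 → ZMod m := fun i => (x i : ZMod m)

theorem pr_add (m : ℕ) (x y : B5) : pr m (x + y) = pr m x + pr m y := by
  funext i; simp [pr]

theorem pr_zero (m : ℕ) : pr m 0 = 0 := by
  funext i; simp [pr]

/-- folded lamps -/
noncomputable def bar (m : ℕ) (f : B5 →₀ ZMod 2) : (Fin 5 → ZMod m) →₀ ZMod 2 := f.mapDomain (pr m)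

theorem bar_shift (m : ℕ) (f : B5 →₀ ZMod 2) (n : B5) (i : Fin 5 → ZMod m) :
    bar m (f.mapDomain (fun j => n + j)) (pr m n + i) = bar m f i := by
  unfold bar
  rw [← Finsupp.mapDomain_comp]
  have : (pr m ∘ fun j => n + j) = (fun j => pr m n + j) ∘ pr m := by
    funext j; simp [pr_add]
  rw [this, Finsupp.mapDomain_comp]
  exact Finsupp.mapDomain_apply (add_right_injective (pr m n)) _ _

/-- the letters -/
abbrev Xl (m : ℕ) : Type := (Fin 5 → ZMod m) × ZMod 2 × Fin 5

/-- the germ group -/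
abbrev Hl : Type := Lp × Equiv.Perm (Fin 5)

/-- the action on the letters -/
noncomputable def act (m : ℕ) : Hl →* Equiv.Perm (Xl m) where
  toFun := fun h =>
    { toFun := fun x => (pr m h.1.n + x.1, x.2.1 + bar m h.1.f (pr m h.1.n + x.1), h.2 x.2.2)
      invFun := fun x => (-pr m h.1.n + x.1, x.2.1 + bar m h.1.f x.1, h.2.symm x.2.2)
      left_inv := fun x => by
        obtain ⟨i, e, y⟩ := x
        simp only [neg_add_cancel_left, Equiv.symm_apply_apply, add_assoc, CharTwo.add_self_eq_zero, add_zero]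
      right_inv := fun x => by
        obtain ⟨i, e, y⟩ := x
        simp only [add_neg_cancel_left, Equiv.apply_symm_apply, add_assoc, CharTwo.add_self_eq_zero, add_zero] }
  map_one' := by
    ext1 x
    obtain ⟨i, e, y⟩ := x
    show (pr m (1 : Lp).n + i, e + bar m (1 : Lp).f (pr m (1 : Lp).n + i), (1 : Equiv.Perm (Fin 5)) y) = (i, e, y)
    rw [Lp.one_n, Lp.one_f, pr_zero, zero_add]
    simp [bar]
  map_mul' := fun h h' => by
    ext1 x
    obtain ⟨i, e, y⟩ := x
    show (pr m (h.1 * h'.1).n + i, e + bar m (h.1 * h'.1).f (pr m (h.1 * h'.1).n + i), (h.2 * h'.2) y)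
      = (pr m h.1.n + (pr m h'.1.n + i), (e + bar m h'.1.f (pr m h'.1.n + i)) + bar m h.1.f (pr m h.1.n + (pr m h'.1.n + i)),
          h.2 (h'.2 y))
    rw [Lp.mul_n, Lp.mul_f, pr_add, add_assoc (pr m h.1.n)]
    have : bar m (h.1.f + h'.1.f.mapDomain (fun i => h.1.n + i)) (pr m h.1.n + (pr m h'.1.n + i))
        = bar m h'.1.f (pr m h'.1.n + i) + bar m h.1.f (pr m h.1.n + (pr m h'.1.n + i)) := by
      have h1 : bar m (h.1.f + h'.1.f.mapDomain (fun i => h.1.n + i))
          = bar m h.1.f + bar m (h'.1.f.mapDomain (fun i => h.1.n + i)) := Finsupp.mapDomain_add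
      rw [h1, Finsupp.add_apply, bar_shift, add_comm]
    rw [this, add_assoc]
    rfl

theorem act_apply (m : ℕ) (h : Hl) (x : Xl m) :
    act m h x = (pr m h.1.n + x.1, x.2.1 + bar m h.1.f (pr m h.1.n + x.1), h.2 x.2.2) := rfl

theorem pr_inj (F : Finset B5) : ∃ M : ℕ, ∀ m, M ≤ m → Set.InjOn (pr m) (F : Set B5) := by
  obtain ⟨C, hC⟩ : ∃ C : ℕ, ∀ x ∈ F, ∀ i, (x i).natAbs ≤ C := by
    refine ⟨F.sup fun x => univ.sup fun i => (x i).natAbs, fun x hx i => ?_⟩
    exact (Finset.le_sup (f := fun i => (x i).natAbs) (mem_univ i)).trans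
      (Finset.le_sup (f := fun x : B5 => univ.sup fun i => (x i).natAbs) hx)
  refine ⟨2 * C + 1, fun m hm x hx y hy h => ?_⟩
  funext i
  have h1 : ((x i : ℤ) : ZMod m) = (y i : ZMod m) := congrFun h i
  have h2 := (ZMod.intCast_eq_intCast_iff_dvd_sub _ _ _).1 h1
  have hx' := hC x hx i
  have hy' := hC y hy i
  by_contra hne
  have h3 : y i - x i ≠ 0 := fun h => hne (by omega)
  have h4 := Int.le_of_dvd (by positivity : (0:ℤ) < |y i - x i|) ((dvd_abs _ _).2 h2)
  have h5 : |y i - x i| ≤ 2 * C := by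
    rw [abs_le]; omega
  omega

theorem act_faithful {h : Hl} (hh : h ≠ 1) (n : ℕ) : ∃ k, n ≤ k ∧ act (k + 3) h ≠ 1 := by
  by_contra hcon
  push Not at hcon
  apply hh
  obtain ⟨M1, hM1⟩ := pr_inj {h.1.n, 0}
  obtain ⟨M2, hM2⟩ := pr_inj h.1.f.support
  have hk := hcon (n + M1 + M2) (by omega)
  set m := n + M1 + M2 + 3 with hm
  have key : ∀ i e y, act m h (i, e, y) = (i, e, y) := fun i e y => by rw [hk]; rfl
  have hn : h.1.n = 0 := by
    have h1 := congrArg Prod.fst (key 0 0 0)
    rw [act_apply] at h1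
    simp only [add_zero] at h1
    exact hM1 m (by omega) (by simp) (by simp) (by rw [h1, pr_zero])
  have hf : h.1.f = 0 := by
    ext b
    rw [Finsupp.zero_apply]
    by_contra hb
    have h1 := congrArg (fun z => z.2.1) (key (pr m b) 0 0)
    rw [act_apply] at h1
    simp only [hn, pr_zero, zero_add] at h1
    apply hb
    rw [← h1]
    unfold bar
    rw [Finsupp.mapDomain_apply' (h.1.f.support : Set B5) _ (subset_refl _) (hM2 m (by omega))]
    exact_mod_cast Finsupp.mem_support_iff.2 hb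
  have hq : h.2 = 1 := by
    ext1 y
    have h1 := congrArg (fun z => z.2.2) (key 0 0 y)
    rw [act_apply] at h1
    exact h1
  exact Prod.ext (Lp.ext hf hn) hq

/-- the system -/
@[reducible] noncomputable def S0 : Sys where
  X := fun k => Xl (k+2)
  fin := fun k => inferInstance
  dec := fun k => inferInstance
  o := fun _ => (0, 0, 0)
  t := fun _ => (0, 0, 1)
  hot := fun _ => by simp
  H := Hl
  grp := inferInstance
  ρ := fun k => act (k+1+2)

theorem S0_faithful (h : S0.H) (hh : h ≠ 1) (n : ℕ) : ∃ k, n ≤ k ∧ S0.ρ k h ≠ 1 := act_faithful hh n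

/-- switch -/
noncomputable def la : Lp := ⟨Finsupp.single 0 1, 0⟩

/-- translation -/
def lt (n : B5) : Lp := ⟨0, n⟩

/-- generators of the germ group, up to inverses -/
def Tg : Set Hl := {(la, 1)} ∪ (Set.range fun i : Fin 5 => (lt (Pi.single i 1), 1)) ∪ Set.range fun q : Equiv.Perm (Fin 5) => ((1 : Lp), q)

theorem lt_add (n m : B5) : lt (n + m) = lt n * lt m := by
  ext1
  · rw [Lp.mul_f]
    show (0 : B5 →₀ ZMod 2) = 0 + Finsupp.mapDomain _ 0
    rw [Finsupp.mapDomain_zero, add_zero]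
  · rfl

theorem lt_zero : lt 0 = 1 := rfl

theorem lt_inv (n : B5) : (lt n)⁻¹ = lt (-n) := by
  rw [inv_eq_iff_mul_eq_one, ← lt_add, add_neg_cancel, lt_zero]

theorem la_mul_la : la * la = 1 := by
  ext1
  · rw [Lp.mul_f]
    show Finsupp.single 0 1 + Finsupp.mapDomain (fun i => (0 : B5) + i) (Finsupp.single 0 1) = 0
    simp only [zero_add]
    have : Finsupp.mapDomain (fun i : B5 => i) (Finsupp.single (0 : B5) (1 : ZMod 2)) = Finsupp.single 0 1 := Finsupp.mapDomain_id
    rw [this, Lp.add_self]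
  · rw [Lp.mul_n]
    show (0 : B5) + 0 = 0
    rw [add_zero]

theorem la_inv : la⁻¹ = la := inv_eq_of_mul_eq_one_left la_mul_la

theorem Lp_gen (K : Subgroup Lp) (ha : la ∈ K) (ht : ∀ i : Fin 5, lt (Pi.single i 1) ∈ K) : K = ⊤ := by
  have h1 : ∀ n : B5, lt n ∈ K := by
    let A : AddSubgroup B5 :=
      { carrier := {n | lt n ∈ K}
        add_mem' := fun {a b} ha hb => by
          show lt (a + b) ∈ K
          rw [lt_add]; exact mul_mem ha hb
        zero_mem' := by
          show lt 0 ∈ K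
          rw [lt_zero]; exact one_mem K
        neg_mem' := fun {a} ha => by
          show lt (-a) ∈ K
          rw [← lt_inv]; exact inv_mem ha }
    intro n
    have : n = ∑ i, (n i) • (Pi.single i 1 : B5) := by
      funext j
      simp [Finset.sum_apply, Pi.single_apply]
    have h2 : n ∈ A := by
      rw [this]
      exact AddSubgroup.sum_mem _ fun i _ => AddSubgroup.zsmul_mem _ (ht i) _
    exact h2
  have h2 : ∀ f : B5 →₀ ZMod 2, (⟨f, 0⟩ : Lp) ∈ K := by
    intro f
    induction f using Finsupp.induction_linear with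
    | zero => exact one_mem K
    | add f g hf hg =>
      have : (⟨f + g, 0⟩ : Lp) = ⟨f, 0⟩ * ⟨g, 0⟩ := by
        ext1
        · rw [Lp.mul_f]
          simp only [zero_add]
          rw [show Finsupp.mapDomain (fun i : B5 => i) g = g from Finsupp.mapDomain_id]
        · rw [Lp.mul_n]
          simp
      rw [this]
      exact mul_mem hf hg
    | single b v =>
      have hv : v = 0 ∨ v = 1 := by revert v; decide
      rcases hv with rfl | rfl
      · rw [Finsupp.single_zero]; exact one_mem K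
      · have : (⟨Finsupp.single b 1, 0⟩ : Lp) = lt b * la * lt (-b) := by
          ext1
          · rw [Lp.mul_f, Lp.mul_f]
            show Finsupp.single b 1 = 0 + Finsupp.mapDomain (fun i => b + i) (Finsupp.single 0 1) + Finsupp.mapDomain _ 0
            rw [Finsupp.mapDomain_zero, add_zero, zero_add, Finsupp.mapDomain_single, add_zero]
          · rw [Lp.mul_n, Lp.mul_n]
            show (0 : B5) = b + 0 + -b
            simp
        rw [this]
        exact mul_mem (mul_mem (h1 _) ha) (h1 _)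
  rw [eq_top_iff]
  intro x _
  have : x = ⟨x.f, 0⟩ * lt x.n := by
    ext1
    · rw [Lp.mul_f]
      show x.f = x.f + Finsupp.mapDomain _ 0
      rw [Finsupp.mapDomain_zero, add_zero]
    · rw [Lp.mul_n]
      show x.n = 0 + x.n
      rw [zero_add]
  rw [this]
  exact mul_mem (h2 _) (h1 _)

theorem Hl_gen (K : Subgroup Hl) (hK : Tg ⊆ K) : K = ⊤ := by
  have h1 : K.comap (MonoidHom.inl Lp (Equiv.Perm (Fin 5))) = ⊤ := by
    apply Lp_gen
    · exact hK (Or.inl (Or.inl rfl))
    · intro i; exact hK (Or.inl (Or.inr ⟨i, rfl⟩))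
  rw [eq_top_iff]
  intro x _
  have h2 : (x.1, 1) ∈ K := by
    have : x.1 ∈ K.comap (MonoidHom.inl Lp (Equiv.Perm (Fin 5))) := by rw [h1]; exact Subgroup.mem_top _
    exact this
  have h3 : ((1 : Lp), x.2) ∈ K := hK (Or.inr ⟨x.2, rfl⟩)
  have : x = (x.1, 1) * (1, x.2) := by
    rw [Prod.mk_mul_mk, mul_one, one_mul]
  rw [this]
  exact mul_mem h2 h3

end Pool.Agent.Helper889.Br
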