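import Mathlib
import Pool.Agent.Helper889.Br.Lamp

set_option autoImplicit false
set_option linter.unusedSectionVars false

namespace Pool.Agent.Helper889.Br

open Finset

/-- boxes -/
noncomputable def Bx (N : ℕ) : Finset B5 := Fintype.piFinset fun _ => Icc (1:ℤ) N
noncomputable def Bn (N : ℕ) : Finset B5 := Fintype.piFinset fun _ => Icc (-(N:ℤ)) (-1)
noncomputable def Bi (N : ℕ) (i : Fin 5) : Finset B5 := Fintype.piFinset fun j => if j = i then Icc (2:ℤ) N else Icc (1:ℤ) N
noncomputable def Us (N : ℕ) : Finset (B5 →₀ ZMod 2) := (Bn N).finsupp fun _ => univ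

theorem mem_Us (N : ℕ) (f : B5 →₀ ZMod 2) : f ∈ Us N ↔ f.support ⊆ Bn N := by
  unfold Us
  rw [Finset.mem_finsupp_iff]
  simp

/-- parametrisation of Foelner sets -/
noncomputable def ph (x : B5 × (B5 →₀ ZMod 2) × Equiv.Perm (Fin 5)) : Hl :=
  (⟨x.2.1.mapDomain (fun i => x.1 + i), x.1⟩, x.2.2)

theorem ph_inj : Function.Injective ph := by
  rintro ⟨n, f, q⟩ ⟨n', f', q'⟩ h
  have h1 : n = n' := congrArg (fun z : Hl => z.1.n) h
  subst h1
  have h2 : f.mapDomain (fun i => n + i) = f'.mapDomain (fun i => n + i) := congrArg (fun z : Hl => z.1.f) h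
  have h3 : q = q' := congrArg (fun z : Hl => z.2) h
  subst h3
  rw [Finsupp.mapDomain_injective (add_right_injective n) h2]

open Classical in
/-- Foelner sets -/
noncomputable def Ef (N : ℕ) : Finset Hl := (Bx N ×ˢ (Us N ×ˢ univ)).image ph

theorem card_Bx (N : ℕ) : (Bx N).card = N ^ 5 := by
  unfold Bx
  rw [Fintype.card_piFinset]
  simp

theorem card_Bi (N : ℕ) (i : Fin 5) : (Bi N i).card = (N - 1) * N ^ 4 := by
  unfold Bi
  rw [Fintype.card_piFinset]
  have : ∀ j : Fin 5, (if j = i then Icc (2:ℤ) N else Icc (1:ℤ) N).card = if j = i then N - 1 else N := by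
    intro j
    split_ifs
    · rw [Int.card_Icc]; omega
    · rw [Int.card_Icc]; omega
  rw [prod_congr rfl fun j _ => this j]
  rw [← Finset.mul_prod_erase univ _ (mem_univ i), if_pos rfl]
  congr 1
  rw [prod_congr rfl (g := fun _ => N) (fun j hj => if_neg (Finset.ne_of_mem_erase hj))]
  simp

theorem Fol_Hl : Fol Hl Tg := by
  classical
  intro ε hε
  obtain ⟨N, hN⟩ := exists_nat_gt (1/ε)
  have hN0 : (0:ℝ) < N := lt_trans (by positivity) hN
  have hN1 : 1 ≤ N := by exact_mod_cast hN0
  have hεN : 1 ≤ ε * N := by
    rw [div_lt_iff₀ hε] at hN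
    linarith
  have hne : (Bx N ×ˢ (Us N ×ˢ (univ : Finset (Equiv.Perm (Fin 5))))).Nonempty := by
    refine ⟨((fun _ => 1), 0, 1), ?_⟩
    simp only [mem_product, mem_univ, and_true]
    constructor
    · unfold Bx
      rw [Fintype.mem_piFinset]
      intro i
      rw [mem_Icc]
      exact ⟨le_rfl, by exact_mod_cast hN1⟩
    · rw [mem_Us]; simp
  refine ⟨Ef N, hne.image _, ?_, ?_⟩
  · unfold Ef
    rw [mem_image]
    rintro ⟨⟨n, f, q⟩, hx, h⟩
    rw [mem_product] at hx
    have h1 : n = 0 := congrArg (fun z : Hl => z.1.n) h
    have h2 := hx.1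
    subst h1
    unfold Bx at h2
    rw [Fintype.mem_piFinset] at h2
    have := h2 0
    rw [mem_Icc] at this
    simp at this
  · intro c hc
    obtain ⟨R, hR⟩ : ∃ R : ℕ, (Us N ×ˢ (univ : Finset (Equiv.Perm (Fin 5)))).card = R := ⟨_, rfl⟩
    have hcardE : (Ef N).card = (N ^ 5) * R := by
      unfold Ef
      rw [card_image_of_injective _ ph_inj, card_product, hR, card_Bx]
    -- full preservation
    have full : (∀ k ∈ Ef N, c⁻¹ * k ∈ Ef N) → (1 - ε) * (Ef N).card ≤ ({k : Hl | k ∈ Ef N ∧ c⁻¹ * k ∈ Ef N}.ncard : ℝ) := by
      intro h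
      have : {k : Hl | k ∈ Ef N ∧ c⁻¹ * k ∈ Ef N} = (Ef N : Set Hl) := by
        ext k
        simp only [Set.mem_ofPred_eq, mem_coe, and_iff_left_iff_imp]
        exact h k
      rw [this, Set.ncard_coe_finset]
      have h2 : (0:ℝ) ≤ (Ef N).card := Nat.cast_nonneg _
      have h3 := mul_nonneg hε.le h2
      linarith
    rcases hc with (hc | ⟨i, hc⟩) | ⟨q0, hc⟩
    · rw [Set.mem_singleton_iff] at hc
      subst hc
      apply full
      intro k hk
      unfold Ef at hk ⊢
      rw [mem_image] at hk ⊢
      obtain ⟨⟨n, f, q⟩, hx, rfl⟩ := hk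
      rw [mem_product, mem_product] at hx
      refine ⟨(n, f + Finsupp.single (-n) 1, q), ?_, ?_⟩
      · rw [mem_product, mem_product]
        refine ⟨hx.1, ?_, hx.2.2⟩
        have h1 := hx.2.1
        rw [mem_Us] at h1 ⊢
        refine Finsupp.support_add.trans (union_subset h1 ?_)
        refine Finsupp.support_single_subset.trans ?_
        rw [singleton_subset_iff]
        have h2 := hx.1
        unfold Bx at h2
        unfold Bn
        rw [Fintype.mem_piFinset] at h2 ⊢
        intro i
        have := h2 i
        rw [mem_Icc] at this ⊢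
        have e : (-(n, f, q).1) i = - n i := rfl
        rw [e]
        have h3 : 1 ≤ n i := this.1
        have h4 : n i ≤ N := this.2
        constructor <;> omega
      · show ph (n, f + Finsupp.single (-n) 1, q) = ((la, 1) : Hl)⁻¹ * ph (n, f, q)
        rw [Prod.inv_mk, la_inv, inv_one]
        unfold ph
        rw [Prod.mk_mul_mk, one_mul]
        ext1
        · ext1
          · rw [Lp.mul_f]
            show Finsupp.mapDomain (fun i => n + i) (f + Finsupp.single (-n) 1)
              = Finsupp.single 0 1 + Finsupp.mapDomain (fun i => (0 : B5) + i) (Finsupp.mapDomain (fun i => n + i) f)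
            rw [Finsupp.mapDomain_add, Finsupp.mapDomain_single, add_neg_cancel, add_comm]
            simp only [zero_add]
            congr 1
            exact Finsupp.mapDomain_id.symm
          · rw [Lp.mul_n]
            show n = 0 + n
            rw [zero_add]
        · rfl
    · simp only at hc
      subst hc
      -- the main estimate
      have hsub : (((Bi N i ×ˢ (Us N ×ˢ (univ : Finset (Equiv.Perm (Fin 5))))).image ph : Finset Hl) : Set Hl)
          ⊆ {k : Hl | k ∈ Ef N ∧ ((lt (Pi.single i 1), 1) : Hl)⁻¹ * k ∈ Ef N} := by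
        intro k hk
        rw [mem_coe, mem_image] at hk
        obtain ⟨⟨n, f, q⟩, hx, rfl⟩ := hk
        rw [mem_product, mem_product] at hx
        have h1 : ∀ j, n j ∈ if j = i then Icc (2:ℤ) N else Icc (1:ℤ) N := by
          have := hx.1
          unfold Bi at this
          rwa [Fintype.mem_piFinset] at this
        constructor
        · unfold Ef
          rw [mem_image]
          refine ⟨(n, f, q), ?_, rfl⟩
          rw [mem_product, mem_product]
          refine ⟨?_, hx.2⟩
          unfold Bx
          rw [Fintype.mem_piFinset]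
          intro j
          have := h1 j
          split_ifs at this
          · rw [mem_Icc] at this ⊢; exact ⟨by linarith [this.1], this.2⟩
          · exact this
        · unfold Ef
          rw [mem_image]
          refine ⟨(n - Pi.single i 1, f, q), ?_, ?_⟩
          · rw [mem_product, mem_product]
            refine ⟨?_, hx.2⟩
            unfold Bx
            rw [Fintype.mem_piFinset]
            intro j
            have := h1 j
            show (n - Pi.single i 1 : B5) j ∈ _
            rw [Pi.sub_apply]
            by_cases hj : j = i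
            · subst hj
              rw [if_pos rfl] at this
              rw [Pi.single_eq_same]
              rw [mem_Icc] at this ⊢; exact ⟨by linarith [this.1], by linarith [this.2]⟩
            · rw [if_neg hj] at this
              rw [Pi.single_eq_of_ne hj, sub_zero]
              exact this
          · rw [Prod.inv_mk, lt_inv, inv_one]
            unfold ph
            rw [Prod.mk_mul_mk, one_mul]
            ext1
            · ext1
              · rw [Lp.mul_f]
                show Finsupp.mapDomain (fun i' => n - Pi.single i 1 + i') f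
                  = 0 + Finsupp.mapDomain (fun i' => (-Pi.single i 1 : B5) + i') (Finsupp.mapDomain (fun i => n + i) f)
                rw [zero_add, ← Finsupp.mapDomain_comp]
                congr 1
                funext i'
                simp only [Function.comp]
                rw [← add_assoc, sub_eq_neg_add]
              · rw [Lp.mul_n]
                show n - Pi.single i 1 = -Pi.single i 1 + n
                rw [sub_eq_neg_add]
            · rfl
      have hfin : {k : Hl | k ∈ Ef N ∧ ((lt (Pi.single i 1), 1) : Hl)⁻¹ * k ∈ Ef N}.Finite :=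
        (Ef N).finite_toSet.subset fun k hk => hk.1
      have h2 := Set.ncard_le_ncard hsub hfin
      rw [Set.ncard_coe_finset, card_image_of_injective _ ph_inj, card_product, hR, card_Bi] at h2
      refine le_trans ?_ (Nat.cast_le.2 h2)
      rw [hcardE]
      push_cast
      have hR : (0:ℝ) ≤ R := Nat.cast_nonneg _
      rw [Nat.cast_sub hN1, Nat.cast_one, ← mul_assoc]
      refine mul_le_mul_of_nonneg_right ?_ hR
      have h4 : (0:ℝ) ≤ (N:ℝ)^4 := by positivity
      have h5 := mul_nonneg h4 (sub_nonneg.2 hεN)
      nlinarith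
    · subst hc
      apply full
      intro k hk
      unfold Ef at hk ⊢
      rw [mem_image] at hk ⊢
      obtain ⟨⟨n, f, q⟩, hx, rfl⟩ := hk
      rw [mem_product, mem_product] at hx
      refine ⟨(n, f, q0⁻¹ * q), ?_, ?_⟩
      · rw [mem_product, mem_product]
        exact ⟨hx.1, hx.2.1, mem_univ _⟩
      · show ph (n, f, q0⁻¹ * q) = ((1, q0) : Hl)⁻¹ * ph (n, f, q)
        rw [Prod.inv_mk, inv_one]
        unfold ph
        rw [Prod.mk_mul_mk, one_mul]

end Pool.Agent.Helper889.Br
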