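import Mathlib
import Pool.Agent.Helper889.Br.Lamp

set_option autoImplicit false
set_option linter.unusedSectionVars false

namespace Pool.Agent.Helper889.Br

open Filter Topology

section generic
variable {V ι : Type} [Fintype ι] [Nonempty ι] (nb : ι → V → V)

/-- averaging operator -/
noncomputable def Av (F : V → ℝ) (v : V) : ℝ := (∑ s, F (nb s v)) / Fintype.card ι

theorem cpos : (0:ℝ) < Fintype.card ι := by exact_mod_cast Fintype.card_pos

theorem Av_mono {F F' : V → ℝ} (h : ∀ v, F v ≤ F' v) (v : V) : Av nb F v ≤ Av nb F' v := by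
  unfold Av
  have := cpos (ι := ι)
  exact div_le_div_of_nonneg_right (Finset.sum_le_sum fun s _ => h _) this.le

theorem Av_const (c : ℝ) (v : V) : Av nb (fun _ => c) v = c := by
  have := cpos (ι := ι)
  unfold Av
  rw [Finset.sum_const, nsmul_eq_mul, Finset.card_univ]
  field_simp

theorem Av_abs (F : V → ℝ) (v : V) : |Av nb F v| ≤ Av nb (fun w => |F w|) v := by
  have := cpos (ι := ι)
  unfold Av
  rw [abs_div, abs_of_pos this]
  exact div_le_div_of_nonneg_right (Finset.abs_sum_le_sum_abs _ _) this.le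

theorem Av_sub (F F' : V → ℝ) (v : V) : Av nb (fun w => F w - F' w) v = Av nb F v - Av nb F' v := by
  unfold Av
  rw [Finset.sum_sub_distrib, sub_div]

theorem Av_smul (c : ℝ) (F : V → ℝ) (v : V) : Av nb (fun w => c * F w) v = c * Av nb F v := by
  unfold Av
  rw [← Finset.mul_sum, mul_div_assoc]

/-- iterates -/
noncomputable def It (n : ℕ) (F : V → ℝ) : V → ℝ := (Av nb)^[n] F

theorem It_succ (n : ℕ) (F : V → ℝ) : It nb (n+1) F = Av nb (It nb n F) := by
  unfold It; rw [Function.iterate_succ_apply']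

theorem It_mono (n : ℕ) {F F' : V → ℝ} (h : ∀ v, F v ≤ F' v) (v : V) : It nb n F v ≤ It nb n F' v := by
  induction n generalizing v with
  | zero => exact h v
  | succ n ih => rw [It_succ, It_succ]; exact Av_mono nb ih v

theorem It_const (n : ℕ) (c : ℝ) : It nb n (fun _ => c) = fun _ => c := by
  induction n with
  | zero => rfl
  | succ n ih => rw [It_succ, ih]; funext v; exact Av_const nb c v

theorem It_nonneg (n : ℕ) {F : V → ℝ} (h : ∀ v, 0 ≤ F v) (v : V) : 0 ≤ It nb n F v := by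
  have := It_mono nb n (F := fun _ => (0:ℝ)) h v
  rw [It_const] at this
  exact this

theorem exists_limit (χ L u : V → ℝ) {c : ℝ} (hc : 0 < c) (hL0 : ∀ v, 0 ≤ L v) (hu0 : ∀ v, 0 ≤ u v)
    (hχ : ∀ v, 0 ≤ χ v ∧ χ v ≤ 1) (hL : ∀ v, |Av nb χ v - χ v| ≤ L v) (hu : ∀ v, Av nb u v ≤ u v - c * L v) :
    ∃ h : V → ℝ, (∀ v, Av nb h v = h v) ∧ (∀ v, 0 ≤ h v ∧ h v ≤ 1) ∧ ∀ v, |χ v - h v| ≤ u v / c := by
  have hsum : ∀ N v, c * ∑ n ∈ Finset.range N, It nb n L v + It nb N u v ≤ u v := by
    have key : ∀ n v, It nb n (Av nb u) v ≤ It nb n u v - c * It nb n L v := by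
      intro n
      induction n with
      | zero => intro v; exact hu v
      | succ n ih =>
        intro v
        rw [It_succ, It_succ, It_succ]
        calc Av nb (It nb n (Av nb u)) v ≤ Av nb (fun w => It nb n u w - c * It nb n L w) v := Av_mono nb ih v
          _ = _ := by rw [Av_sub, Av_smul]
    intro N v
    induction N with
    | zero => simp [It]
    | succ N ih =>
      rw [Finset.sum_range_succ]
      have h1 : It nb (N+1) u v = It nb N (Av nb u) v := by
        unfold It; rw [Function.iterate_succ_apply]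
      have := key N v
      rw [h1]
      linarith
  have hle : ∀ v N, ∑ n ∈ Finset.range N, It nb n L v ≤ u v / c := by
    intro v N
    rw [le_div_iff₀ hc]
    have h1 := hsum N v
    have h2 := It_nonneg nb N hu0 v
    linarith
  have hS : ∀ v, Summable (fun n => It nb n L v) := fun v =>
    summable_of_sum_range_le (fun n => It_nonneg nb n hL0 v) (hle v)
  have hT : ∀ v, ∑' n, It nb n L v ≤ u v / c := fun v => (hS v).tsum_le_of_sum_range_le (hle v)
  have hstep : ∀ n v, dist (It nb n χ v) (It nb (n+1) χ v) ≤ It nb n L v := by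
    intro n
    induction n with
    | zero =>
      intro v
      rw [Real.dist_eq, abs_sub_comm]
      exact hL v
    | succ n ih =>
      intro v
      rw [It_succ nb (n+1), It_succ nb n χ, It_succ nb n L, Real.dist_eq, ← Av_sub]
      refine (Av_abs nb _ v).trans (Av_mono nb (fun w => ?_) v)
      have := ih w
      rw [Real.dist_eq, It_succ] at this
      exact this
  have hcv : ∀ v, ∃ a, Tendsto (fun n => It nb n χ v) atTop (𝓝 a) := fun v =>
    cauchySeq_tendsto_of_complete (cauchySeq_of_dist_le_of_summable _ (fun n => hstep n v) (hS v))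
  choose h hh using hcv
  refine ⟨h, fun v => ?_, fun v => ⟨?_, ?_⟩, fun v => ?_⟩
  · have h1 : Tendsto (fun n => It nb (n+1) χ v) atTop (𝓝 (h v)) := (tendsto_add_atTop_iff_nat 1).2 (hh v)
    have h2 : Tendsto (fun n => It nb (n+1) χ v) atTop (𝓝 (Av nb h v)) := by
      simp only [It_succ]
      unfold Av
      exact Tendsto.div_const (tendsto_finsetSum _ fun s _ => hh (nb s v)) _
    exact tendsto_nhds_unique h2 h1
  · exact ge_of_tendsto' (hh v) fun n => It_nonneg nb n (fun w => (hχ w).1) v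
  · refine le_of_tendsto' (hh v) fun n => ?_
    have := It_mono nb n (F := χ) (F' := fun _ => (1:ℝ)) (fun w => (hχ w).2) v
    rw [It_const] at this
    exact this
  · have := dist_le_tsum_of_dist_le_of_tendsto₀ _ (fun n => hstep n v) (hS v) (hh v)
    rw [Real.dist_eq] at this
    exact this.trans (hT v)

end generic

/-- signs -/
def sg (b : Bool) : ℤ := if b then 1 else -1

/-- steps -/
def stp (s : Fin 5 × Bool) : B5 := Pi.single s.1 (sg s.2)

/-- `1 + |x|^2` -/
noncomputable def Q (x : B5) : ℝ := 1 + ∑ i : Fin 5, (x i : ℝ) ^ 2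

theorem Q_stp (x : B5) (i : Fin 5) (b : Bool) :
    Q (x + stp (i, b)) = Q x + 2 * sg b * x i + 1 := by
  unfold Q stp
  have h : ∀ j : Fin 5, (((x + Pi.single i (sg b) : B5) j : ℤ) : ℝ) ^ 2
      = (x j : ℝ) ^ 2 + (if j = i then 2 * (sg b : ℝ) * x i + 1 else 0) := by
    intro j
    by_cases hj : j = i
    · subst hj
      simp only [Pi.add_apply, Pi.single_eq_same, if_true]
      push_cast
      have : (sg b : ℝ) ^ 2 = 1 := by cases b <;> simp [sg]
      linear_combination this
    · simp [hj]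
  simp only [h]
  rw [Finset.sum_add_distrib, Finset.sum_ite_eq' Finset.univ i]
  simp
  ring

theorem Q_pos (x : B5) : 1 ≤ Q x := by
  unfold Q
  have : 0 ≤ ∑ i : Fin 5, (x i : ℝ) ^ 2 := Finset.sum_nonneg fun i _ => sq_nonneg _
  linarith

theorem Q_zero : Q 0 = 1 := by
  unfold Q; simp

theorem sum_stp (F : Fin 5 × Bool → ℝ) : ∑ s, F s = ∑ i : Fin 5, (F (i, true) + F (i, false)) := by
  rw [Fintype.sum_prod_type]
  simp

theorem superharm (x : B5) :
    ∑ s, (Q (x + stp s))⁻¹ ≤ 10 * (Q x)⁻¹ - 5 * (if x = 0 then 1 else 0) := by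
  rw [sum_stp]
  simp only [Q_stp]
  have hQ := Q_pos x
  by_cases hx : x = 0
  · rw [if_pos hx, hx, Q_zero]
    simp
    norm_num
  · rw [if_neg hx]
    obtain ⟨R, hR⟩ : ∃ R, R = Q x := ⟨_, rfl⟩
    rw [← hR] at hQ ⊢
    have hsum : ∑ i : Fin 5, (x i : ℝ) ^ 2 = R - 1 := by rw [hR]; unfold Q; ring
    have hyi : ∀ i : Fin 5, (x i : ℝ) ^ 2 ≤ R - 1 := by
      intro i
      rw [← hsum]
      exact Finset.single_le_sum (f := fun i : Fin 5 => (x i : ℝ) ^ 2) (fun i _ => sq_nonneg _) (Finset.mem_univ i)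
    have hD : 0 < (R - 1)^2 + 4 := by positivity
    have hterm : ∀ i : Fin 5, (R + 2 * (sg true : ℝ) * x i + 1)⁻¹ + (R + 2 * (sg false : ℝ) * x i + 1)⁻¹
        ≤ 2 / (R + 1) + 8 * (x i : ℝ)^2 / ((R + 1) * ((R-1)^2 + 4)) := by
      intro i
      have hy := hyi i
      obtain ⟨y, hy'⟩ : ∃ y : ℝ, y = x i := ⟨_, rfl⟩
      rw [← hy'] at hy ⊢
      simp only [sg]
      have hpos : 0 < (R+1)^2 - 4 * y^2 := by nlinarith [sq_nonneg (R-1)]
      have ha : 0 < R + 2 * y + 1 := by nlinarith [sq_nonneg (y+1)]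
      have hb : 0 < R - 2 * y + 1 := by nlinarith [sq_nonneg (y-1)]
      have e1 : (R + 2 * ((1:ℤ) : ℝ) * y + 1)⁻¹ + (R + 2 * ((-1 : ℤ) : ℝ) * y + 1)⁻¹ = 2 * (R+1) / ((R+1)^2 - 4 * y^2) := by
        push_cast
        have : (R+1)^2 - 4 * y^2 = (R + 2 * y + 1) * (R - 2 * y + 1) := by ring
        rw [this]
        have hb' : R + 2 * -1 * y + 1 = R - 2 * y + 1 := by ring
        rw [hb']
        field_simp
        ring
      have e2 : 2 * (R+1) / ((R+1)^2 - 4 * y^2) = 2 / (R+1) + 8 * y^2 / ((R+1) * ((R+1)^2 - 4 * y^2)) := by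
        have : (0:ℝ) < R + 1 := by linarith
        field_simp
        ring
      simp only [if_true, Bool.false_eq_true, if_false]
      rw [e1, e2]
      have h3 : (R-1)^2 + 4 ≤ (R+1)^2 - 4 * y^2 := by nlinarith
      have : (0:ℝ) < R + 1 := by linarith
      gcongr
    have htot : ∑ i : Fin 5, ((R + 2 * (sg true : ℝ) * x i + 1)⁻¹ + (R + 2 * (sg false : ℝ) * x i + 1)⁻¹)
        ≤ 10 / (R + 1) + 8 * (R - 1) / ((R + 1) * ((R-1)^2 + 4)) := by
      refine (Finset.sum_le_sum fun i _ => hterm i).trans (le_of_eq ?_)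
      rw [Finset.sum_add_distrib, ← Finset.sum_div Finset.univ (fun i : Fin 5 => 8 * (x i : ℝ)^2),
        ← Finset.mul_sum, hsum, Finset.sum_const, nsmul_eq_mul]
      simp
      ring
    have hfin : 10 / (R + 1) + 8 * (R - 1) / ((R + 1) * ((R-1)^2 + 4)) ≤ 10 / R := by
      have h1 : (0:ℝ) < R + 1 := by linarith
      have h2 : (0:ℝ) < R := by linarith
      rw [div_add_div _ _ h1.ne' (by positivity), div_le_div_iff₀ (by positivity) h2]
      have : 0 ≤ (R+1) * (2 * R^2 - 12 * R + 50) := by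
        apply mul_nonneg h1.le
        nlinarith [sq_nonneg (R - 3)]
      nlinarith
    have h3 : 10 / R = 10 * R⁻¹ := by rw [div_eq_mul_inv]
    linarith

/-- index set of the generators of the germ group -/
abbrev JH : Type := Unit ⊕ (Fin 5 × Bool) ⊕ Equiv.Perm (Fin 5)

/-- the generators of the germ group -/
noncomputable def gH : JH → Hl
  | Sum.inl _ => (la, 1)
  | Sum.inr (Sum.inl s) => (lt (stp s), 1)
  | Sum.inr (Sum.inr q) => (1, q)

theorem sum_JH (F : JH → ℝ) : ∑ j, F j = F (Sum.inl ()) + (∑ s, F (Sum.inr (Sum.inl s)) + ∑ q, F (Sum.inr (Sum.inr q))) := by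
  rw [Fintype.sum_sum_type, Fintype.sum_sum_type]
  simp

/-- a bounded nonconstant harmonic function on the germ group -/
theorem exists_harm : ∃ F : Hl → ℝ, (∀ v, (∑ j, F (v * gH j)) = Fintype.card JH * F v) ∧ (∀ v, 0 ≤ F v ∧ F v ≤ 1) ∧
    F (la, 1) ≠ F 1 := by
  classical
  obtain ⟨N, hN⟩ : ∃ N : ℕ, Fintype.card (Equiv.Perm (Fin 5)) = N := ⟨_, rfl⟩
  have hcard : Fintype.card JH = 11 + N := by
    show Fintype.card (Unit ⊕ (Fin 5 × Bool) ⊕ Equiv.Perm (Fin 5)) = _
    rw [Fintype.card_sum, Fintype.card_sum, hN]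
    simp
    ring
  have hC : (0:ℝ) < 11 + N := by positivity
  set χ : Hl → ℝ := fun v => if v.1.f 0 = 0 then 0 else 1 with hχ
  set L : Hl → ℝ := fun v => (if v.1.n = 0 then 1 else 0) / (11 + N) with hL
  set u : Hl → ℝ := fun v => (Q v.1.n)⁻¹ with hu
  have hTu : ∀ v, Av (fun j v => v * gH j) u v ≤ u v - 5 * L v := by
    intro v
    unfold Av
    rw [sum_JH, hcard]
    push_cast
    have h1 : u (v * gH (Sum.inl ())) = u v := by
      show (Q (v.1 * la).n)⁻¹ = (Q v.1.n)⁻¹
      rw [Lp.mul_n]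
      show (Q (v.1.n + 0))⁻¹ = _
      rw [add_zero]
    have h2 : ∀ q, u (v * gH (Sum.inr (Sum.inr q))) = u v := by
      intro q
      show (Q (v.1 * 1).n)⁻¹ = (Q v.1.n)⁻¹
      rw [mul_one]
    have h3 : ∀ s, u (v * gH (Sum.inr (Sum.inl s))) = (Q (v.1.n + stp s))⁻¹ := fun s => rfl
    simp only [h1, h2, h3]
    rw [Finset.sum_const, nsmul_eq_mul, Finset.card_univ, hN]
    have h4 := superharm v.1.n
    rw [div_le_iff₀ hC]
    have h5 : (u v - 5 * L v) * (11 + N) = (11 + N) * u v - 5 * (if v.1.n = 0 then 1 else 0) := by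
      simp only [hL]
      field_simp
    rw [h5]
    have h6 : (Q v.1.n)⁻¹ = u v := rfl
    rw [h6] at h4
    linarith
  have hTχ : ∀ v, |Av (fun j v => v * gH j) χ v - χ v| ≤ L v := by
    intro v
    unfold Av
    rw [sum_JH, hcard]
    push_cast
    have h2 : ∀ q, χ (v * gH (Sum.inr (Sum.inr q))) = χ v := by
      intro q
      show (if (v.1 * 1).f 0 = 0 then (0:ℝ) else 1) = if v.1.f 0 = 0 then 0 else 1
      rw [mul_one]
    have h3 : ∀ s, χ (v * gH (Sum.inr (Sum.inl s))) = χ v := by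
      intro s
      have : (v.1 * lt (stp s)).f = v.1.f := by
        rw [Lp.mul_f]
        show v.1.f + Finsupp.mapDomain _ 0 = _
        rw [Finsupp.mapDomain_zero, add_zero]
      show (if (v.1 * lt (stp s)).f 0 = 0 then (0:ℝ) else 1) = if v.1.f 0 = 0 then 0 else 1
      rw [this]
    simp only [h2, h3]
    rw [Finset.sum_const, Finset.sum_const, nsmul_eq_mul, nsmul_eq_mul, Finset.card_univ, Finset.card_univ, hN]
    have h5 : (χ (v * gH (Sum.inl ())) + (((Fintype.card (Fin 5 × Bool) : ℕ) : ℝ) * χ v + N * χ v)) / (11 + N) - χ v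
        = (χ (v * gH (Sum.inl ())) - χ v) / (11 + N) := by
      simp
      field_simp
      ring
    rw [h5, abs_div, abs_of_pos hC]
    simp only [hL]
    refine div_le_div_of_nonneg_right ?_ hC.le
    have hf : (v.1 * la).f 0 = v.1.f 0 + Finsupp.single v.1.n (1 : ZMod 2) 0 := by
      rw [Lp.mul_f]
      show (v.1.f + Finsupp.mapDomain (fun i => v.1.n + i) (Finsupp.single 0 1) : B5 →₀ ZMod 2) 0 = _
      rw [Finsupp.mapDomain_single, add_zero, Finsupp.add_apply]
    by_cases h0 : v.1.n = 0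
    · rw [if_pos h0]
      have : ∀ w, 0 ≤ χ w ∧ χ w ≤ 1 := by
        intro w; simp only [hχ]; split_ifs <;> norm_num
      rw [abs_le]
      constructor <;> linarith [(this v).1, (this v).2, (this (v * gH (Sum.inl ()))).1, (this (v * gH (Sum.inl ()))).2]
    · rw [if_neg h0]
      have : χ (v * gH (Sum.inl ())) = χ v := by
        show (if (v.1 * la).f 0 = 0 then (0:ℝ) else 1) = if v.1.f 0 = 0 then 0 else 1
        rw [hf, Finsupp.single_eq_of_ne (Ne.symm h0), add_zero]
      rw [this]; simp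
  obtain ⟨h, h1, h2, h3⟩ := exists_limit (fun j v => v * gH j) χ L u (c := 5) (by norm_num)
    (fun v => by simp only [hL]; split_ifs <;> positivity)
    (fun v => by have := Q_pos v.1.n; simp only [hu]; positivity)
    (fun v => by simp only [hχ]; split_ifs <;> norm_num) hTχ hTu
  refine ⟨h, fun v => ?_, h2, ?_⟩
  · have := h1 v
    unfold Av at this
    rw [div_eq_iff (by rw [hcard]; push_cast; exact hC.ne')] at this
    rw [this, mul_comm]
  · have ha := h3 (la, 1)
    have hb := h3 1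
    have ea : χ (la, 1) = 1 := by
      simp only [hχ]
      rw [if_neg]
      show ¬ (Finsupp.single (0 : B5) (1 : ZMod 2)) 0 = 0
      rw [Finsupp.single_eq_same]
      decide
    have eb : χ 1 = 0 := by
      simp only [hχ]
      rw [if_pos]
      rfl
    have ua : u (la, 1) = 1 := by
      show (Q (0 : B5))⁻¹ = 1
      rw [Q_zero, inv_one]
    have ub : u 1 = 1 := by
      show (Q (0 : B5))⁻¹ = 1
      rw [Q_zero, inv_one]
    rw [ea, ua, abs_le] at ha
    rw [eb, ub, abs_le] at hb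
    intro hcon
    norm_num at ha hb
    linarith [ha.1, ha.2, hb.1, hb.2]

end Pool.Agent.Helper889.Br
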